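import Mathlib

set_option autoImplicit false

/-!
# Weak Jacobi forms of lattice index one
-/

namespace Pool.Agent.R396.WJ

open UpperHalfPlane ModularForm
open scoped MatrixGroups Real

/-- The bilinear form `(z, w) = zᵀ S w` with integral Gram matrix `S` (over any commutative
ring). -/
def form {n : ℕ} {R : Type*} [CommRing R] (S : Matrix (Fin n) (Fin n) ℤ) (z w : Fin n → R) : R :=
  ∑ i, ∑ j, z i * (S i j : R) * w j

/-- `S` is the Gram matrix of an even positive definite lattice (the lattice is `ℤⁿ` with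
`(x, y) = xᵀ S y`). -/
structure IsEvenPosDef {n : ℕ} (S : Matrix (Fin n) (Fin n) ℤ) : Prop where
  symm : S.IsSymm
  even : ∀ x : Fin n → ℤ, Even (form S x x)
  pos : ∀ x : Fin n → ℤ, x ≠ 0 → 0 < form S x x

/-- The lattice is irreducible: it is not the orthogonal direct sum of two nonzero sublattices. -/
def IsIrreducible {n : ℕ} (S : Matrix (Fin n) (Fin n) ℤ) : Prop :=
  ∀ A B : AddSubgroup (Fin n → ℤ), IsCompl A B → (∀ a ∈ A, ∀ b ∈ B, form S a b = 0) →
    A = ⊥ ∨ B = ⊥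

/-- `φ` is a weak Jacobi form of weight `k` and index one for the lattice `L = ℤⁿ` with Gram matrix
`S`.  In the Fourier expansion the vector `x ∈ ℤⁿ` stands for the vector `ℓ = S⁻¹ x` of the dual
lattice, so `(ℓ, z) = ∑ xᵢ zᵢ`. -/
structure IsWeakJacobiForm {n : ℕ} (S : Matrix (Fin n) (Fin n) ℤ) (k : ℤ)
    (φ : ℍ → (Fin n → ℂ) → ℂ) : Prop where
  holo : DifferentiableOn ℂ (fun p : ℂ × (Fin n → ℂ) => φ (ofComplex p.1) p.2) {p | 0 < p.1.im}
  modular : ∀ (γ : SL(2, ℤ)) (τ : ℍ) (z : Fin n → ℂ),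
    φ (γ • τ) (fun i => z i / denom γ τ) =
      denom γ τ ^ k *
        Complex.exp (π * Complex.I * (γ 1 0 : ℤ) * form S z z / denom γ τ) * φ τ z
  elliptic : ∀ (τ : ℍ) (z : Fin n → ℂ) (l m : Fin n → ℤ),
    φ τ (fun i => z i + l i * (τ : ℂ) + m i) =
      Complex.exp (-(π * Complex.I * form S (fun i => (l i : ℂ)) (fun i => (l i : ℂ)) * (τ : ℂ))
        - 2 * π * Complex.I * form S (fun i => (l i : ℂ)) z) * φ τ z
  fourier : ∃ f : ℕ → (Fin n → ℤ) → ℂ, ∀ (τ : ℍ) (z : Fin n → ℂ),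
    HasSum (fun p : ℕ × (Fin n → ℤ) =>
      f p.1 p.2 * Complex.exp (2 * π * Complex.I * (p.1 * (τ : ℂ) + ∑ i, p.2 i * z i))) (φ τ z)

/-- The family `φ i` of weak Jacobi forms of weights `k i` is a homogeneous basis of the graded
module of weak Jacobi forms of index one for `S` over the graded ring of modular forms for
`SL₂(ℤ)`: every weak Jacobi form `ψ` of weight `w` is in a unique way a finite sum of products of
modular forms of weight `w - k i` and the forms `φ i`. -/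
structure IsHomogeneousBasis {n : ℕ} (S : Matrix (Fin n) (Fin n) ℤ) {ι : Type} (k : ι → ℤ)
    (φ : ι → ℍ → (Fin n → ℂ) → ℂ) : Prop where
  mem : ∀ i, IsWeakJacobiForm S (k i) (φ i)
  basis : ∀ (w : ℤ) (ψ : ℍ → (Fin n → ℂ) → ℂ), IsWeakJacobiForm S w ψ →
    ∃! g : (i : ι) → ModularForm 𝒮ℒ (w - k i), {i | g i ≠ 0}.Finite ∧
      ∀ τ z, ψ τ z = ∑ᶠ i, g i τ * φ i τ z

end Pool.Agent.R396.WJ
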