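import Pool.Agent.R396.QM.QExp
import Pool.Agent.R396.WJ.Defs

set_option autoImplicit false

/-!
# Taylor coefficients of weak Jacobi forms of weight zero
-/

namespace Pool.Agent.R396.WJ

open UpperHalfPlane ModularForm Filter Topology
open scoped MatrixGroups Real
open Pool.Agent.R396.QM

noncomputable section

/-- `exp (2 π i x)` -/
def ex (x : ℂ) : ℂ := Complex.exp (2 * π * Complex.I * x)

theorem ex_add (x y : ℂ) : ex (x + y) = ex x * ex y := by
  unfold ex; rw [mul_add, Complex.exp_add]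

theorem norm_ex (x : ℂ) : ‖ex x‖ = Real.exp (-(2 * π * x.im)) := by
  unfold ex
  rw [Complex.norm_exp]
  congr 1
  simp

theorem hasDerivAt_ex (d : ℂ) (u : ℂ) :
    HasDerivAt (fun u => ex (d * u)) (2 * π * Complex.I * d * ex (d * u)) u := by
  unfold ex
  have h1 : HasDerivAt (fun u : ℂ => 2 * π * Complex.I * (d * u)) (2 * π * Complex.I * d) u := by
    have := (hasDerivAt_id u).const_mul (2 * π * Complex.I * d)
    simpa [mul_assoc] using this
  have := h1.cexp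
  rw [mul_comm (Complex.exp _)] at this
  exact this

section expSum

variable {ι : Type*} {A : ι → ℂ} {d : ι → ℤ}

theorem expSum_deriv_bound (hs : ∀ R : ℝ, Summable fun p => ‖A p‖ * Real.exp (R * |(d p : ℝ)|))
    (R : ℝ) : Summable fun p => ‖A p * (2 * π * Complex.I * d p)‖ * Real.exp (R * |(d p : ℝ)|) := by
  refine Summable.of_nonneg_of_le (fun p => by positivity) (fun p => ?_) (hs (2 * π + R))
  have h1 : ‖A p * (2 * π * Complex.I * d p)‖ = ‖A p‖ * (2 * π * |(d p : ℝ)|) := by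
    rw [norm_mul]
    congr 1
    simp [abs_of_pos Real.pi_pos]
  rw [h1, mul_assoc]
  refine mul_le_mul_of_nonneg_left ?_ (norm_nonneg _)
  rw [add_mul, Real.exp_add]
  refine mul_le_mul_of_nonneg_right ?_ (Real.exp_pos _).le
  have := Real.add_one_le_exp (2 * π * |(d p : ℝ)|)
  linarith

theorem expSum_summable (hs : ∀ R : ℝ, Summable fun p => ‖A p‖ * Real.exp (R * |(d p : ℝ)|))
    (u : ℂ) : Summable fun p => A p * ex (d p * u) := by
  refine Summable.of_norm_bounded (hs (2 * π * |u.im|)) fun p => ?_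
  rw [norm_mul, norm_ex]
  refine mul_le_mul_of_nonneg_left (Real.exp_le_exp.2 ?_) (norm_nonneg _)
  have h1 : ((d p : ℂ) * u).im = (d p : ℝ) * u.im := by simp
  rw [h1]
  have h2 : -((d p : ℝ) * u.im) ≤ |(d p : ℝ)| * |u.im| := by
    rw [← abs_mul]; exact neg_le_abs _
  have := Real.pi_pos
  nlinarith

theorem expSum_hasDerivAt (hs : ∀ R : ℝ, Summable fun p => ‖A p‖ * Real.exp (R * |(d p : ℝ)|))
    (u : ℂ) : HasDerivAt (fun u => ∑' p, A p * ex (d p * u))
      (∑' p, (A p * (2 * π * Complex.I * d p)) * ex (d p * u)) u := by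
  have hpi := Real.pi_pos
  have := hasDerivAt_tsum_of_isPreconnected (t := Metric.ball (0 : ℂ) (‖u‖ + 1))
    (g := fun p u => A p * ex (d p * u))
    (g' := fun p u => (A p * (2 * π * Complex.I * d p)) * ex (d p * u))
    (expSum_deriv_bound hs (2 * π * (‖u‖ + 1))) Metric.isOpen_ball
    (convex_ball (0 : ℂ) _).isPreconnected (fun p y _ => by
      have := (hasDerivAt_ex (d p) y).const_mul (A p)
      rw [← mul_assoc] at this
      exact this) (fun p y hy => by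
      rw [norm_mul, norm_ex]
      refine mul_le_mul_of_nonneg_left (Real.exp_le_exp.2 ?_) (norm_nonneg _)
      rw [Metric.mem_ball, dist_zero_right] at hy
      have h1 : ((d p : ℂ) * y).im = (d p : ℝ) * y.im := by simp
      rw [h1]
      have h2 : -((d p : ℝ) * y.im) ≤ |(d p : ℝ)| * |y.im| := by
        rw [← abs_mul]; exact neg_le_abs _
      have h3 : |y.im| ≤ ‖u‖ + 1 := (Complex.abs_im_le_norm y).trans hy.le
      have h4 : |(d p : ℝ)| * |y.im| ≤ |(d p : ℝ)| * (‖u‖ + 1) :=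
        mul_le_mul_of_nonneg_left h3 (abs_nonneg _)
      nlinarith) (y₀ := 0) (by simp; positivity) (expSum_summable hs 0) (y := u) (by simp)
  exact this

end expSum

theorem S_smul_coe (τ : ℍ) : ((ModularGroup.S • τ : ℍ) : ℂ) = -1 / (τ : ℂ) := by
  rw [UpperHalfPlane.modular_S_smul]
  simp [neg_div, inv_neg]

theorem E2_S (τ : ℍ) : EisensteinSeries.E2 (ModularGroup.S • τ) =
    (τ : ℂ) ^ 2 * EisensteinSeries.E2 τ - 6 * Complex.I / π * τ := by
  have h := congrFun (EisensteinSeries.E2_slash_action ModularGroup.S) τ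
  rw [SL_slash_apply] at h
  simp only [Pi.sub_apply, Pi.smul_apply, EisensteinSeries.D2_S, smul_eq_mul] at h
  rw [riemannZeta_two] at h
  have h0 : (τ : ℂ) ≠ 0 := ne_zero τ
  have hd : denom ModularGroup.S τ = (τ : ℂ) := ModularGroup.denom_S τ
  rw [hd] at h
  have hpi : (π : ℂ) ≠ 0 := by exact_mod_cast Real.pi_ne_zero
  have h1 : EisensteinSeries.E2 (ModularGroup.S • τ) = (τ : ℂ) ^ 2 *
      (EisensteinSeries.E2 (ModularGroup.S • τ) * (τ : ℂ) ^ (-2 : ℤ)) := by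
    rw [zpow_neg, zpow_ofNat]
    field_simp
  rw [h1, h]
  field_simp

/-! ### the Taylor coefficients -/

variable {n : ℕ}

/-- `x · v` -/
def dt (x v : Fin n → ℤ) : ℤ := ∑ i, x i * v i

/-- the terms with the direction `v` -/
def At (f : ℕ → (Fin n → ℤ) → ℂ) (τ : ℂ) (p : ℕ × (Fin n → ℤ)) : ℂ := f p.1 p.2 * ex (p.1 * τ)

theorem form_smul (S : Matrix (Fin n) (Fin n) ℤ) (v : Fin n → ℤ) (u : ℂ) :
    form S (fun i => u * (v i : ℂ)) (fun i => u * (v i : ℂ)) = u ^ 2 * ((form S v v : ℤ) : ℂ) := by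
  simp only [form, Int.cast_sum, Int.cast_mul, Finset.mul_sum]
  refine Finset.sum_congr rfl fun i _ => Finset.sum_congr rfl fun j _ => ?_
  simp
  ring

section

variable {S : Matrix (Fin n) (Fin n) ℤ} {φ : ℍ → (Fin n → ℂ) → ℂ}
  {f : ℕ → (Fin n → ℤ) → ℂ}

/-- the Fourier expansion hypothesis -/
def FE (φ : ℍ → (Fin n → ℂ) → ℂ) (f : ℕ → (Fin n → ℤ) → ℂ) : Prop :=
  ∀ (τ : ℍ) (z : Fin n → ℂ), HasSum (fun p : ℕ × (Fin n → ℤ) =>
      f p.1 p.2 * Complex.exp (2 * π * Complex.I * (p.1 * (τ : ℂ) + ∑ i, p.2 i * z i))) (φ τ z)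

theorem FE.line (hf : FE φ f) (v : Fin n → ℤ) (τ : ℍ) (u : ℂ) :
    HasSum (fun p : ℕ × (Fin n → ℤ) => At f τ p * ex ((dt p.2 v : ℤ) * u))
      (φ τ (fun i => u * (v i : ℂ))) := by
  have h := hf τ (fun i => u * (v i : ℂ))
  have e : (fun p : ℕ × (Fin n → ℤ) => At f τ p * ex ((dt p.2 v : ℤ) * u)) =
      fun p : ℕ × (Fin n → ℤ) => f p.1 p.2 *
        Complex.exp (2 * π * Complex.I * (p.1 * (τ : ℂ) + ∑ i, p.2 i * (u * (v i : ℂ)))) := by
    funext p
    rw [At, mul_assoc, ← ex_add]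
    unfold ex dt
    congr 3
    push_cast
    rw [Finset.sum_mul]
    congr 1
    exact Finset.sum_congr rfl fun i _ => by ring
  rw [e]
  exact h

theorem FE.summ (hf : FE φ f) (v : Fin n → ℤ) (τ : ℍ) (R : ℝ) :
    Summable fun p : ℕ × (Fin n → ℤ) => ‖At f τ p‖ * Real.exp (R * |((dt p.2 v : ℤ) : ℝ)|) := by
  have hpi := Real.pi_pos
  have h1 := (hf.line v τ (-(R / (2 * π) : ℝ) * Complex.I)).summable.norm
  have h2 := (hf.line v τ ((R / (2 * π) : ℝ) * Complex.I)).summable.norm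
  refine Summable.of_nonneg_of_le (fun p => by positivity) (fun p => ?_) (h1.add h2)
  rw [norm_mul, norm_mul, ← mul_add]
  refine mul_le_mul_of_nonneg_left ?_ (norm_nonneg _)
  rw [norm_ex, norm_ex]
  have e1 : -(2 * π * (((dt p.2 v : ℤ) : ℂ) * (-(R / (2 * π) : ℝ) * Complex.I)).im) =
      R * ((dt p.2 v : ℤ) : ℝ) := by
    simp only [Complex.mul_im, Complex.intCast_re, Complex.intCast_im, Complex.neg_re,
      Complex.neg_im, Complex.ofReal_re, Complex.ofReal_im, Complex.I_re, Complex.I_im]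
    field_simp
    ring
  have e2 : -(2 * π * (((dt p.2 v : ℤ) : ℂ) * ((R / (2 * π) : ℝ) * Complex.I)).im) =
      -(R * ((dt p.2 v : ℤ) : ℝ)) := by
    simp only [Complex.mul_im, Complex.intCast_re, Complex.intCast_im,
      Complex.ofReal_re, Complex.ofReal_im, Complex.I_re, Complex.I_im]
    field_simp
    ring
  rw [e1, e2]
  rcases abs_cases ((dt p.2 v : ℤ) : ℝ) with ⟨h, _⟩ | ⟨h, _⟩
  · rw [h]
    have := Real.exp_pos (-(R * ((dt p.2 v : ℤ) : ℝ)))
    linarith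
  · rw [h, mul_neg]
    have := Real.exp_pos (R * ((dt p.2 v : ℤ) : ℝ))
    linarith

theorem ex_eq_q (m : ℕ) (τ : ℂ) : ex (m * τ) = Function.Periodic.qParam 1 τ ^ m := by
  unfold ex Function.Periodic.qParam
  rw [← Complex.exp_nat_mul]
  congr 1
  push_cast
  ring

theorem hasQ_of_sum (w : (Fin n → ℤ) → ℂ)
    (hs : ∀ τ : ℍ, Summable fun p : ℕ × (Fin n → ℤ) => At f τ p * w p.2) :
    HasQ (fun τ => ∑' p : ℕ × (Fin n → ℤ), At f τ p * w p.2) (fun m => ∑' x, f m x * w x) := by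
  intro τ
  refine (hs τ).hasSum.prod_fiberwise fun m => ?_
  have hx : Summable fun x => f m x * w x := by
    have := ((hs τ).prod_factor m).mul_right (ex (m * τ))⁻¹
    refine this.congr fun x => ?_
    have hne : ex ((m : ℂ) * (τ : ℂ)) ≠ 0 := Complex.exp_ne_zero _
    simp only [At]
    field_simp
  have h2 := hx.hasSum.mul_right (Function.Periodic.qParam 1 (τ : ℂ) ^ m)
  have e : (fun x => At f τ (m, x) * w x) =
      fun x => f m x * w x * Function.Periodic.qParam 1 (τ : ℂ) ^ m := by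
    funext x
    simp only [At]
    rw [ex_eq_q]
    ring
  rw [e]
  exact h2

/-- second derivative of the modular transformation at the origin -/
theorem second_moment (hφ : ∀ (τ : ℍ) (z : Fin n → ℂ),
      φ (ModularGroup.S • τ) (fun i => z i / τ) =
        Complex.exp (π * Complex.I * form S z z / τ) * φ τ z)
    (hf : FE φ f) (v : Fin n → ℤ) (τ : ℍ) :
    (∑' p : ℕ × (Fin n → ℤ), At f (ModularGroup.S • τ : ℍ) p * ((dt p.2 v : ℤ) : ℂ) ^ 2) =
      (τ : ℂ) ^ 2 * (∑' p : ℕ × (Fin n → ℤ), At f τ p * ((dt p.2 v : ℤ) : ℂ) ^ 2) -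
        Complex.I * ((form S v v : ℤ) : ℂ) / (2 * π) * τ * φ τ 0 := by
  have hτ : (τ : ℂ) ≠ 0 := ne_zero τ
  have hpi : (π : ℂ) ≠ 0 := by exact_mod_cast Real.pi_ne_zero
  have g0 : ∀ (σ : ℍ) (u : ℂ), φ σ (fun i => u * (v i : ℂ)) =
      ∑' p : ℕ × (Fin n → ℤ), At f σ p * ex ((dt p.2 v : ℤ) * u) :=
    fun σ u => ((hf.line v σ u).tsum_eq).symm
  have D0 : ∀ (σ : ℍ) (u : ℂ), HasDerivAt
      (fun u => ∑' p : ℕ × (Fin n → ℤ), At f σ p * ex ((dt p.2 v : ℤ) * u))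
      (∑' p : ℕ × (Fin n → ℤ), (At f σ p * (2 * π * Complex.I * (dt p.2 v : ℤ))) *
        ex ((dt p.2 v : ℤ) * u)) u := fun σ u =>
    expSum_hasDerivAt (A := At f σ) (d := fun p : ℕ × (Fin n → ℤ) => dt p.2 v) (hf.summ v σ) u
  have D1 : ∀ (σ : ℍ) (u : ℂ), HasDerivAt
      (fun u => ∑' p : ℕ × (Fin n → ℤ), (At f σ p * (2 * π * Complex.I * (dt p.2 v : ℤ))) *
        ex ((dt p.2 v : ℤ) * u))
      (∑' p : ℕ × (Fin n → ℤ), ((At f σ p * (2 * π * Complex.I * (dt p.2 v : ℤ))) *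
        (2 * π * Complex.I * (dt p.2 v : ℤ))) * ex ((dt p.2 v : ℤ) * u)) u := fun σ u =>
    expSum_hasDerivAt (A := fun p => At f σ p * (2 * π * Complex.I * (dt p.2 v : ℤ)))
      (d := fun p : ℕ × (Fin n → ℤ) => dt p.2 v) (expSum_deriv_bound (hf.summ v σ)) u
  set g : ℍ → ℂ → ℂ := fun σ u =>
    ∑' p : ℕ × (Fin n → ℤ), At f σ p * ex ((dt p.2 v : ℤ) * u) with hg
  set g1 : ℍ → ℂ → ℂ := fun σ u =>
    ∑' p : ℕ × (Fin n → ℤ), (At f σ p * (2 * π * Complex.I * (dt p.2 v : ℤ))) *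
        ex ((dt p.2 v : ℤ) * u) with hg1
  set g2 : ℍ → ℂ → ℂ := fun σ u =>
    ∑' p : ℕ × (Fin n → ℤ), ((At f σ p * (2 * π * Complex.I * (dt p.2 v : ℤ))) *
        (2 * π * Complex.I * (dt p.2 v : ℤ))) * ex ((dt p.2 v : ℤ) * u) with hg2
  have D0' : ∀ (σ : ℍ) (u : ℂ), HasDerivAt (g σ) (g1 σ u) u := D0
  have D1' : ∀ (σ : ℍ) (u : ℂ), HasDerivAt (g1 σ) (g2 σ u) u := D1
  set c : ℂ := π * Complex.I * ((form S v v : ℤ) : ℂ) / τ with hc
  have hrel : (fun u : ℂ => g (ModularGroup.S • τ) (u / τ)) =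
      fun u : ℂ => Complex.exp (c * u ^ 2) * g τ u := by
    funext u
    have h1 := hφ τ (fun i => u * (v i : ℂ))
    rw [form_smul, g0 τ u] at h1
    have h2 : (fun i => u * (v i : ℂ) / (τ : ℂ)) = fun i => (u / τ) * (v i : ℂ) := by
      funext i
      ring
    rw [h2, g0] at h1
    have h3 : π * Complex.I * (u ^ 2 * ((form S v v : ℤ) : ℂ)) / τ = c * u ^ 2 := by
      rw [hc]; ring
    rw [h3] at h1
    exact h1
  have hdiv : ∀ u : ℂ, HasDerivAt (fun u : ℂ => u / (τ : ℂ)) (1 / (τ : ℂ)) u := fun u =>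
    (hasDerivAt_id u).div_const _
  have L1 : ∀ u : ℂ, HasDerivAt (fun u : ℂ => g (ModularGroup.S • τ) (u / τ))
      (g1 (ModularGroup.S • τ) (u / τ) * (1 / τ)) u := fun u =>
    HasDerivAt.comp (h₂ := g (ModularGroup.S • τ)) (h₂' := g1 (ModularGroup.S • τ) (u / τ)) u
      (D0' (ModularGroup.S • τ) (u / τ)) (hdiv u)
  have hexp : ∀ u : ℂ, HasDerivAt (fun u : ℂ => Complex.exp (c * u ^ 2))
      (Complex.exp (c * u ^ 2) * (c * (2 * u))) u := fun u => by
    have h1 : HasDerivAt (fun u : ℂ => c * u ^ 2) (c * (2 * u)) u := by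
      have := (hasDerivAt_pow 2 u).const_mul c
      simpa using this
    exact h1.cexp
  have R1 : ∀ u : ℂ, HasDerivAt (fun u : ℂ => Complex.exp (c * u ^ 2) * g τ u)
      (Complex.exp (c * u ^ 2) * (c * (2 * u)) * g τ u + Complex.exp (c * u ^ 2) * g1 τ u) u :=
    fun u => (hexp u).mul (D0' τ u)
  have hrel1 : (fun u : ℂ => g1 (ModularGroup.S • τ) (u / τ) * (1 / τ)) =
      fun u : ℂ => Complex.exp (c * u ^ 2) * (c * (2 * u)) * g τ u +
        Complex.exp (c * u ^ 2) * g1 τ u := by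
    funext u
    have h1 := L1 u
    rw [hrel] at h1
    exact h1.unique (R1 u)
  have L2 : HasDerivAt (fun u : ℂ => g1 (ModularGroup.S • τ) (u / τ) * (1 / τ))
      (g2 (ModularGroup.S • τ) (0 / τ) * (1 / τ) * (1 / τ)) 0 :=
    (HasDerivAt.comp (h₂ := g1 (ModularGroup.S • τ)) (h₂' := g2 (ModularGroup.S • τ) (0 / τ)) 0
      (D1' (ModularGroup.S • τ) (0 / τ)) (hdiv 0)).mul_const (1 / (τ : ℂ))
  have hlin : HasDerivAt (fun u : ℂ => c * (2 * u)) (c * (2 * 1)) 0 :=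
    ((hasDerivAt_id (0 : ℂ)).const_mul 2).const_mul c
  have R2 : HasDerivAt (fun u : ℂ => Complex.exp (c * u ^ 2) * (c * (2 * u)) * g τ u +
        Complex.exp (c * u ^ 2) * g1 τ u)
      (((Complex.exp (c * 0 ^ 2) * (c * (2 * 0)) * (c * (2 * 0)) +
        Complex.exp (c * 0 ^ 2) * (c * (2 * 1))) * g τ 0 +
        Complex.exp (c * 0 ^ 2) * (c * (2 * 0)) * g1 τ 0) +
        (Complex.exp (c * 0 ^ 2) * (c * (2 * 0)) * g1 τ 0 + Complex.exp (c * 0 ^ 2) * g2 τ 0)) 0 :=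
    (((hexp 0).mul hlin).mul (D0' τ 0)).add ((hexp 0).mul (D1' τ 0))
  rw [hrel1] at L2
  have hfin := L2.unique R2
  have E2 : ∀ σ : ℍ, g2 σ 0 = -(4 * π ^ 2) *
      ∑' p : ℕ × (Fin n → ℤ), At f σ p * ((dt p.2 v : ℤ) : ℂ) ^ 2 := by
    intro σ
    rw [hg2, ← tsum_mul_left]
    simp only
    refine tsum_congr fun p => ?_
    have : ex (((dt p.2 v : ℤ) : ℂ) * 0) = 1 := by unfold ex; simp
    rw [this]
    linear_combination (4 * π ^ 2 * At f σ p * ((dt p.2 v : ℤ) : ℂ) ^ 2) * Complex.I_sq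
  have hg00 : g τ 0 = φ τ 0 := by
    have h0 := g0 τ 0
    have h1 : (fun i => (0 : ℂ) * (v i : ℂ)) = 0 := by
      funext i
      simp
    rw [h1] at h0
    exact h0.symm
  rw [zero_div, E2, E2, hg00] at hfin
  simp only [ne_eq, OfNat.ofNat_ne_zero, not_false_eq_true, zero_pow, mul_zero, Complex.exp_zero,
    zero_mul, one_mul, mul_one, add_zero, zero_add] at hfin
  set K := ∑' p : ℕ × (Fin n → ℤ), At f τ p * ((dt p.2 v : ℤ) : ℂ) ^ 2
  set K' := ∑' p : ℕ × (Fin n → ℤ), At f (ModularGroup.S • τ : ℍ) p * ((dt p.2 v : ℤ) : ℂ) ^ 2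
  rw [hc] at hfin
  field_simp at hfin
  field_simp
  linear_combination (-1 / 2) * hfin

theorem sum_zero (hf : FE φ f) (τ : ℍ) :
    (Summable fun p : ℕ × (Fin n → ℤ) => At f τ p * 1) ∧
      ∑' p : ℕ × (Fin n → ℤ), At f τ p * 1 = φ τ 0 := by
  have h := hf.line 0 τ 0
  have e : (fun p : ℕ × (Fin n → ℤ) => At f τ p * ex ((dt p.2 (0 : Fin n → ℤ) : ℤ) * (0 : ℂ))) =
      fun p => At f τ p * 1 := by
    funext p
    have : ex ((dt p.2 (0 : Fin n → ℤ) : ℤ) * (0 : ℂ)) = 1 := by unfold ex; simp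
    rw [this]
  have h1 : (fun i => (0 : ℂ) * (((0 : Fin n → ℤ) i : ℤ) : ℂ)) = 0 := by
    funext i
    simp
  rw [e, h1] at h
  exact ⟨h.summable, h.tsum_eq⟩

theorem summ_sq (hf : FE φ f) (v : Fin n → ℤ) (τ : ℍ) :
    Summable fun p : ℕ × (Fin n → ℤ) => At f τ p * ((dt p.2 v : ℤ) : ℂ) ^ 2 := by
  have h := expSum_summable (expSum_deriv_bound (expSum_deriv_bound (hf.summ v τ))) 0
  have h2 := h.mul_left (-(1 / (4 * π ^ 2)) : ℂ)
  refine h2.congr fun p => ?_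
  have hpi : (π : ℂ) ≠ 0 := by exact_mod_cast Real.pi_ne_zero
  have : ex (((dt p.2 v : ℤ) : ℂ) * 0) = 1 := by unfold ex; simp
  rw [this]
  field_simp
  linear_combination (-4) * At f τ p * ((dt p.2 v : ℤ) : ℂ) ^ 2 * Complex.I_sq

theorem moment_zero (hφ : ∀ (τ : ℍ) (z : Fin n → ℂ),
      φ (ModularGroup.S • τ) (fun i => z i / τ) =
        Complex.exp (π * Complex.I * form S z z / τ) * φ τ z)
    (hf : FE φ f) : (∀ τ, φ τ 0 = ∑' x, f 0 x) ∧ ∀ m, m ≠ 0 → ∑' x, f m x = 0 := by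
  have h1 : HasQ (fun τ => φ τ 0) (fun m => ∑' x, f m x) := by
    have := hasQ_of_sum (f := f) (fun _ => 1) fun τ => (sum_zero hf τ).1
    have e : (fun τ : ℍ => ∑' p : ℕ × (Fin n → ℤ), At f τ p * 1) = fun τ => φ τ 0 := by
      funext τ
      exact (sum_zero hf τ).2
    rw [e] at this
    simpa using this
  refine h1.weight_zero ?_
  ext τ
  rw [SL_slash_apply]
  have h2 := hφ τ 0
  have e1 : (fun i => (0 : Fin n → ℂ) i / (τ : ℂ)) = 0 := by
    funext i
    simp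
  have e2 : form S (0 : Fin n → ℂ) 0 = 0 := by simp [form]
  rw [e1, e2] at h2
  simp only [mul_zero, zero_div, Complex.exp_zero, one_mul] at h2
  simp only [neg_zero, zpow_zero, mul_one]
  exact h2

/-- coefficients of `E2` -/
def e2 (m : ℕ) : ℂ := if m = 0 then 1 else -24 * ArithmeticFunction.sigma 1 m

theorem hasQ_E2 : HasQ EisensteinSeries.E2 e2 := by
  intro τ
  have := EisensteinSeries.hasSum_qExpansion_E2 (z := τ)
  have e : (fun m : ℕ => (if m = 0 then (1 : ℂ) else -24 * ArithmeticFunction.sigma 1 m) •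
      Complex.exp (2 * π * Complex.I * (τ : ℂ)) ^ m) =
      fun m : ℕ => e2 m * Function.Periodic.qParam 1 τ ^ m := by
    funext m
    rw [smul_eq_mul]
    unfold e2 Function.Periodic.qParam
    simp
  rw [← e]
  exact this

theorem moment_two (hφ : ∀ (τ : ℍ) (z : Fin n → ℂ),
      φ (ModularGroup.S • τ) (fun i => z i / τ) =
        Complex.exp (π * Complex.I * form S z z / τ) * φ τ z)
    (hf : FE φ f) (v : Fin n → ℤ) (m : ℕ) :
    ∑' x, f m x * ((dt x v : ℤ) : ℂ) ^ 2 =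
      ((form S v v : ℤ) : ℂ) * (∑' x, f 0 x) / 12 * e2 m := by
  have hpi : (π : ℂ) ≠ 0 := by exact_mod_cast Real.pi_ne_zero
  have hK : HasQ (fun τ => ∑' p : ℕ × (Fin n → ℤ), At f τ p * ((dt p.2 v : ℤ) : ℂ) ^ 2)
      (fun m => ∑' x, f m x * ((dt x v : ℤ) : ℂ) ^ 2) :=
    hasQ_of_sum (fun x => ((dt x v : ℤ) : ℂ) ^ 2) fun τ => summ_sq hf v τ
  set c : ℂ := ((form S v v : ℤ) : ℂ) * (∑' x, f 0 x) / 12 with hc
  have hF : HasQ (fun τ => (∑' p : ℕ × (Fin n → ℤ), At f τ p * ((dt p.2 v : ℤ) : ℂ) ^ 2) -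
      c * EisensteinSeries.E2 τ)
      (fun m => (∑' x, f m x * ((dt x v : ℤ) : ℂ) ^ 2) - c * e2 m) := by
    intro τ
    have := (hK τ).sub ((hasQ_E2 τ).mul_left c)
    have e : (fun k : ℕ => ((∑' x, f k x * ((dt x v : ℤ) : ℂ) ^ 2) - c * e2 k) *
        Function.Periodic.qParam 1 (τ : ℂ) ^ k) =
        fun k : ℕ => (∑' x, f k x * ((dt x v : ℤ) : ℂ) ^ 2) * Function.Periodic.qParam 1 (τ : ℂ) ^ k -
          c * (e2 k * Function.Periodic.qParam 1 (τ : ℂ) ^ k) := by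
      funext k
      ring
    rw [e]
    exact this
  have h0 := hF.weight_two (by
    ext τ
    have hτ : (τ : ℂ) ≠ 0 := ne_zero τ
    rw [SL_slash_apply, ModularGroup.denom_S, second_moment hφ hf v τ, E2_S,
      (moment_zero hφ hf).1 τ, hc, zpow_neg, zpow_ofNat]
    field_simp
    ring)
  have := h0 m
  linear_combination this

end

end

end Pool.Agent.R396.WJ
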