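import Pool.Agent.R396.WJ.Lat

set_option autoImplicit false

/-!
# Classification of the minimal vectors
-/

namespace Pool.Agent.R396.WJ

section

variable {x : Fin 15 → ℤ} (hx : ∀ l, 0 ≤ 2 * dot15 x l + form S15 l l)

include hx

theorem pair_ineq {i j : Fin 14} (hij : i ≠ j) (a b : ℤ) (ha : a = 1 ∨ a = -1)
    (hb : b = 1 ∨ b = -1) : 0 ≤ YY x i * a + YY x j * b + 2 := by
  have hu : ∑ k, (Pi.single i a + Pi.single j b : Fin 14 → ℤ) k = 2 * ((a + b) / 2) := by
    simp only [Pi.add_apply, Finset.sum_add_distrib, Finset.sum_pi_single', Finset.mem_univ,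
      if_true]
    rcases ha with rfl | rfl <;> rcases hb with rfl | rfl <;> decide
  have h := min_ineq hx (Pi.single i a + Pi.single j b) ((a + b) / 2) 0 hu
  have h1 : ∑ k, YY x k * (Pi.single i a + Pi.single j b : Fin 14 → ℤ) k =
      YY x i * a + YY x j * b := by
    simp only [Pi.add_apply, mul_add, Finset.sum_add_distrib, Pi.single_apply, mul_ite, mul_zero,
      Finset.sum_ite_eq', Finset.mem_univ, if_true]
  have h2 : ∑ k, (Pi.single i a + Pi.single j b : Fin 14 → ℤ) k ^ 2 = 2 := by
    have : ∀ k, (Pi.single i a + Pi.single j b : Fin 14 → ℤ) k ^ 2 =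
        (if k = i then a ^ 2 else 0) + (if k = j then b ^ 2 else 0) := by
      intro k
      rw [Pi.add_apply, Pi.single_apply, Pi.single_apply]
      by_cases h1 : k = i
      · have : k ≠ j := fun h => hij (h1.symm.trans h)
        simp [h1, hij]
      · simp [h1, ite_pow]
    rw [Finset.sum_congr rfl fun k _ => this k, Finset.sum_add_distrib]
    simp only [Finset.sum_ite_eq', Finset.mem_univ, if_true]
    rcases ha with rfl | rfl <;> rcases hb with rfl | rfl <;> norm_num
  rw [h1, h2] at h
  linarith

theorem set_ineq (T : Finset (Fin 14)) (hT : Even T.card) :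
    -4 ≤ ∑ i ∈ T, YY x i + 2 * x 14 ∧ ∑ i ∈ T, YY x i + 2 * x 14 ≤ 4 := by
  obtain ⟨r, hr⟩ := hT
  have hsum : ∀ c : ℤ, ∑ k, (if k ∈ T then c else 0 : ℤ) = c * (2 * r) := by
    intro c
    rw [Finset.sum_ite_mem, Finset.univ_inter, Finset.sum_const, hr]
    simp
    ring
  have hY : ∀ c : ℤ, ∑ k, YY x k * (if k ∈ T then c else 0 : ℤ) = c * ∑ i ∈ T, YY x i := by
    intro c
    rw [Finset.mul_sum]
    simp only [mul_ite, mul_zero]
    rw [Finset.sum_ite_mem, Finset.univ_inter]
    exact Finset.sum_congr rfl fun i _ => by ring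
  have hsq : ∀ c : ℤ, ∑ k, (if k ∈ T then c else 0 : ℤ) ^ 2 = c ^ 2 * (2 * r) := by
    intro c
    have : ∀ k, (if k ∈ T then c else 0 : ℤ) ^ 2 = if k ∈ T then c ^ 2 else 0 := by
      intro k
      split_ifs <;> simp
    rw [Finset.sum_congr rfl fun k _ => this k]
    exact hsum (c ^ 2)
  have h1 := min_ineq hx (fun k => if k ∈ T then 1 else 0) r 1 (by rw [hsum]; ring)
  have h2 := min_ineq hx (fun k => if k ∈ T then -1 else 0) (-r) (-1) (by rw [hsum]; ring)
  simp only [hY, hsq] at h1 h2
  constructor <;> nlinarith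

theorem full_ineq : -2 ≤ ∑ i, YY x i + 4 * x 14 ∧ ∑ i, YY x i + 4 * x 14 ≤ 2 := by
  have h1 := min_ineq hx (fun _ => 1) 7 2 (by simp)
  have h2 := min_ineq hx (fun _ => -1) (-7) (-2) (by simp)
  simp only [mul_one, mul_neg, Finset.sum_neg_distrib, Finset.sum_const, Finset.card_univ,
    Fintype.card_fin, one_pow, neg_sq, nsmul_eq_mul] at h1 h2
  norm_num at h1 h2
  constructor <;> linarith

theorem classify : x = 0 ∨ ∃ k, x = XX k := by
  have hY14 : ∀ i, YY x i ≤ 2 ∧ -2 ≤ YY x i := by
    intro i
    obtain ⟨j, hj⟩ : ∃ j : Fin 14, i ≠ j := by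
      by_cases h : i = 0
      · exact ⟨1, by rw [h]; decide⟩
      · exact ⟨0, h⟩
    have h1 := pair_ineq hx hj 1 1 (Or.inl rfl) (Or.inl rfl)
    have h2 := pair_ineq hx hj 1 (-1) (Or.inl rfl) (Or.inr rfl)
    have h3 := pair_ineq hx hj (-1) 1 (Or.inr rfl) (Or.inl rfl)
    have h4 := pair_ineq hx hj (-1) (-1) (Or.inr rfl) (Or.inr rfl)
    constructor <;> linarith
  rcases Int.emod_two_eq_zero_or_one (x 12 + x 13) with hpar | hpar
  · -- even case
    have hev : ∀ i, YY x i % 2 = 0 := fun i => (YY_parity x i).trans hpar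
    by_cases hz : ∀ i, YY x i = 0
    · left
      have h14 : x 14 = 0 := by
        have := full_ineq hx
        rw [Finset.sum_eq_zero fun i _ => hz i] at this
        omega
      refine YY_inj (fun i => ?_) (by rw [h14]; rfl)
      rw [hz i]
      fin_cases i <;> rfl
    · right
      push Not at hz
      obtain ⟨j, hj⟩ := hz
      have hj2 : YY x j = 2 ∨ YY x j = -2 := by
        have := hev j
        have := hY14 j
        omega
      have hother : ∀ i, i ≠ j → YY x i = 0 := by
        intro i hij
        have h1 := pair_ineq hx hij 1 1 (Or.inl rfl) (Or.inl rfl)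
        have h2 := pair_ineq hx hij 1 (-1) (Or.inl rfl) (Or.inr rfl)
        have h3 := pair_ineq hx hij (-1) 1 (Or.inr rfl) (Or.inl rfl)
        have h4 := pair_ineq hx hij (-1) (-1) (Or.inr rfl) (Or.inr rfl)
        rcases hj2 with h | h <;> rw [h] at h1 h2 h3 h4 <;> omega
      have hsumY : ∑ i, YY x i = YY x j :=
        Finset.sum_eq_single j (fun i _ hi => hother i hi) (fun h => absurd (Finset.mem_univ _) h)
      have hfull := full_ineq hx
      rw [hsumY] at hfull
      have hj14 := j.isLt
      have fin : ∀ k : Fin 56, k.val / 4 = j.val →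
          (YY x j = if k.val % 4 < 2 then 2 else -2) →
          (x 14 = if k.val % 2 = 0 then 0 else (if k.val % 4 < 2 then -1 else 1)) → x = XX k := by
        intro k hk1 hk2 hk3
        obtain ⟨hv1, hv2⟩ := XX_val k
        refine YY_inj (fun i => ?_) (by rw [hv2, hk3])
        rw [hv1 i, hk1]
        by_cases hij : i = j
        · rw [hij, if_pos rfl, hk2]
        · rw [hother i hij, if_neg fun h => hij (Fin.ext h)]
      rcases hj2 with h | h
      · rw [h] at hfull
        have h14 : x 14 = 0 ∨ x 14 = -1 := by omega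
        rcases h14 with h14 | h14
        · refine ⟨⟨4 * j.val, by omega⟩, fin _ ?_ ?_ ?_⟩
          · show 4 * j.val / 4 = j.val
            omega
          · show YY x j = if 4 * j.val % 4 < 2 then 2 else -2
            rw [if_pos (by omega), h]
          · show x 14 = if 4 * j.val % 2 = 0 then 0 else (if 4 * j.val % 4 < 2 then -1 else 1)
            rw [if_pos (by omega), h14]
        · refine ⟨⟨4 * j.val + 1, by omega⟩, fin _ ?_ ?_ ?_⟩
          · show (4 * j.val + 1) / 4 = j.val
            omega
          · show YY x j = if (4 * j.val + 1) % 4 < 2 then 2 else -2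
            rw [if_pos (by omega), h]
          · show x 14 = if (4 * j.val + 1) % 2 = 0 then 0 else
              (if (4 * j.val + 1) % 4 < 2 then -1 else 1)
            rw [if_neg (by omega), if_pos (by omega), h14]
      · rw [h] at hfull
        have h14 : x 14 = 0 ∨ x 14 = 1 := by omega
        rcases h14 with h14 | h14
        · refine ⟨⟨4 * j.val + 2, by omega⟩, fin _ ?_ ?_ ?_⟩
          · show (4 * j.val + 2) / 4 = j.val
            omega
          · show YY x j = if (4 * j.val + 2) % 4 < 2 then 2 else -2
            rw [if_neg (by omega), h]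
          · show x 14 = if (4 * j.val + 2) % 2 = 0 then 0 else
              (if (4 * j.val + 2) % 4 < 2 then -1 else 1)
            rw [if_pos (by omega), h14]
        · refine ⟨⟨4 * j.val + 3, by omega⟩, fin _ ?_ ?_ ?_⟩
          · show (4 * j.val + 3) / 4 = j.val
            omega
          · show YY x j = if (4 * j.val + 3) % 4 < 2 then 2 else -2
            rw [if_neg (by omega), h]
          · show x 14 = if (4 * j.val + 3) % 2 = 0 then 0 else
              (if (4 * j.val + 3) % 4 < 2 then -1 else 1)
            rw [if_neg (by omega), if_neg (by omega), h14]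
  · -- odd case
    exfalso
    have hodd : ∀ i, YY x i % 2 = 1 := fun i => (YY_parity x i).trans hpar
    have hY1 : ∀ i, YY x i = 1 ∨ YY x i = -1 := by
      intro i
      have := hodd i
      have := hY14 i
      omega
    set P : Finset (Fin 14) := Finset.univ.filter fun i => YY x i = 1 with hP
    set N : Finset (Fin 14) := Finset.univ.filter fun i => ¬ YY x i = 1 with hN
    have hcard : P.card + N.card = 14 := by
      rw [hP, hN, Finset.card_filter_add_card_filter_not]
      simp
    have hPsum : ∀ T ⊆ P, ∑ i ∈ T, YY x i = T.card := by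
      intro T hT
      rw [Finset.sum_congr rfl fun i hi => (Finset.mem_filter.1 (hT hi)).2]
      simp
    have hNsum : ∀ T ⊆ N, ∑ i ∈ T, YY x i = -(T.card : ℤ) := by
      intro T hT
      rw [Finset.sum_congr rfl fun i hi =>
        (hY1 i).resolve_left (Finset.mem_filter.1 (hT hi)).2]
      simp
    rcases Nat.even_or_odd P.card with he | ho
    · have hNe : Even N.card := by
        obtain ⟨r, hr⟩ := he
        exact ⟨7 - r, by omega⟩
      have h1 := (set_ineq hx P he).2
      have h2 := (set_ineq hx N hNe).1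
      rw [hPsum P subset_rfl] at h1
      rw [hNsum N subset_rfl] at h2
      omega
    · have hNo : Odd N.card := by
        obtain ⟨r, hr⟩ := ho
        exact ⟨6 - r, by omega⟩
      obtain ⟨p, hp⟩ : P.Nonempty := Finset.card_pos.1 ho.pos
      obtain ⟨q, hq⟩ : N.Nonempty := Finset.card_pos.1 hNo.pos
      have hc1 := Finset.card_erase_of_mem hp
      have hc2 := Finset.card_erase_of_mem hq
      have hpos1 := ho.pos
      have hpos2 := hNo.pos
      have h1 := (set_ineq hx (P.erase p) (by rw [hc1]; exact Nat.Odd.sub_odd ho odd_one)).2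
      have h2 := (set_ineq hx (N.erase q) (by rw [hc2]; exact Nat.Odd.sub_odd hNo odd_one)).1
      rw [hPsum _ (Finset.erase_subset _ _), hc1] at h1
      rw [hNsum _ (Finset.erase_subset _ _), hc2] at h2
      omega

end

end Pool.Agent.R396.WJ
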