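import Pool.Agent.R396.WJ.Ana

set_option autoImplicit false

/-!
# Uniqueness of multiple Fourier expansions
-/

namespace Pool.Agent.R396.WJ

open MeasureTheory Filter Topology
open scoped Real

noncomputable section

local instance : MeasureSpace UnitAddCircle := ⟨AddCircle.haarAddCircle⟩

local instance : Measure.IsAddHaarMeasure (volume : Measure UnitAddCircle) :=
  inferInstanceAs (Measure.IsAddHaarMeasure AddCircle.haarAddCircle)

local instance : IsProbabilityMeasure (volume : Measure UnitAddCircle) :=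
  inferInstanceAs (IsProbabilityMeasure AddCircle.haarAddCircle)

theorem coeff_eq_zero {d : Type*} [Fintype d] (c : (d → ℤ) → ℂ) (hs : Summable fun k => ‖c k‖)
    (h0 : ∀ x : d → ℝ, ∑' k, c k * ex (∑ i, (k i : ℂ) * x i) = 0) : ∀ k, c k = 0 := by
  have hsum : Summable fun k => c k • (UnitAddTorus.mFourier k : C(UnitAddTorus d, ℂ)) := by
    refine Summable.of_norm ?_
    simpa [norm_smul, UnitAddTorus.mFourier_norm] using hs
  have hF : ∑' k, c k • (UnitAddTorus.mFourier k : C(UnitAddTorus d, ℂ)) = 0 := by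
    ext p
    obtain ⟨x, rfl⟩ : ∃ x : d → ℝ, (fun i => ((x i : ℝ) : UnitAddCircle)) = p := by
      choose x hx using fun i => QuotientAddGroup.mk_surjective (p i)
      exact ⟨x, funext hx⟩
    have hh := (hsum.hasSum.mapL (ContinuousMap.evalCLM ℂ
      (fun i => ((x i : ℝ) : UnitAddCircle)))).tsum_eq
    refine hh.symm.trans ((Eq.trans ?_ (h0 x)))
    refine tsum_congr fun k => ?_
    show c k * ∏ i : d, fourier (k i) ((x i : ℝ) : UnitAddCircle) = _
    simp only [fourier_coe_apply]
    rw [← Complex.exp_sum]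
    unfold ex
    congr 2
    rw [Finset.mul_sum]
    refine Finset.sum_congr rfl fun i _ => ?_
    push_cast
    ring
  intro k
  have hL := hsum.hasSum
  rw [hF] at hL
  have h2 := hL.mapL (ContinuousMap.toLp (E := ℂ) 2 (volume : Measure (UnitAddTorus d)) ℂ)
  have h3 := h2.mapL (innerSL ℂ (UnitAddTorus.mFourierLp (d := d) 2 k))
  rw [map_zero, map_zero] at h3
  have h4 : (fun j => (innerSL ℂ (UnitAddTorus.mFourierLp (d := d) 2 k))
      ((ContinuousMap.toLp (E := ℂ) 2 (volume : Measure (UnitAddTorus d)) ℂ)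
        (c j • (UnitAddTorus.mFourier j : C(UnitAddTorus d, ℂ))))) =
      fun j => if j = k then c k else 0 := by
    funext j
    have ho := (orthonormal_iff_ite.mp (UnitAddTorus.orthonormal_mFourier (d := d))) k j
    rw [map_smul, map_smul]
    show c j • inner ℂ (UnitAddTorus.mFourierLp (d := d) 2 k)
      (UnitAddTorus.mFourierLp (d := d) 2 j) = _
    rw [ho]
    by_cases hjk : j = k
    · subst hjk
      simp
    · have : k ≠ j := fun h => hjk h.symm
      simp [hjk, this]
  rw [h4] at h3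
  exact (hasSum_ite_eq k (c k)).unique h3

theorem hasSum_extend_mul {α β : Type*} {e : α → β} (he : Function.Injective e) (a : α → ℂ)
    (w : β → ℂ) {s : ℂ} (h : HasSum (fun p => a p * w (e p)) s) :
    HasSum (fun k => Function.extend e a 0 k * w k) s := by
  have : (fun k => Function.extend e a 0 k * w k) =
      Function.extend e (fun p => a p * w (e p)) 0 := by
    funext k
    by_cases hk : ∃ p, e p = k
    · obtain ⟨p, rfl⟩ := hk
      rw [he.extend_apply, he.extend_apply]
    · rw [Function.extend_apply' _ _ _ hk, Function.extend_apply' _ _ _ hk]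
      simp
  rw [this, hasSum_extend_zero he]
  exact h

open UpperHalfPlane

variable {n : ℕ}

theorem form_half (S : Matrix (Fin n) (Fin n) ℤ) (l : Fin n → ℤ) (h : Even (form S l l)) :
    form S (fun i => (l i : ℂ)) (fun i => (l i : ℂ)) = 2 * ((form S l l / 2 : ℤ) : ℂ) := by
  have h1 : form S (fun i => (l i : ℂ)) (fun i => (l i : ℂ)) = ((form S l l : ℤ) : ℂ) := by
    simp [form]
  rw [h1]
  obtain ⟨r, hr⟩ := h
  rw [hr]
  have : (r + r) / 2 = r := by omega
  rw [this]
  push_cast
  ring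

theorem form_mulVec (S : Matrix (Fin n) (Fin n) ℤ) (hS : S.IsSymm) (l : Fin n → ℤ)
    (z : Fin n → ℂ) : form S (fun i => (l i : ℂ)) z = ∑ i, ((S.mulVec l i : ℤ) : ℂ) * z i := by
  simp only [form, Matrix.mulVec, dotProduct, Int.cast_sum, Int.cast_mul]
  rw [Finset.sum_comm]
  refine Finset.sum_congr rfl fun j _ => ?_
  rw [Finset.sum_mul]
  refine Finset.sum_congr rfl fun i _ => ?_
  rw [hS.apply i j]
  ring

/-- index of a Fourier coefficient -/
def idx (N : ℤ) (y : Fin n → ℤ) : Option (Fin n) → ℤ := fun o => o.elim N y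

theorem idx_inj {N N' : ℤ} {y y' : Fin n → ℤ} (h : idx N y = idx N' y') : N = N' ∧ y = y' :=
  ⟨congrFun h none, funext fun i => congrFun h (some i)⟩

theorem sum_idx (N : ℤ) (y : Fin n → ℤ) (x : Option (Fin n) → ℝ) :
    ∑ o, ((idx N y o : ℤ) : ℂ) * x o = N * x none + ∑ i, (y i : ℂ) * x (some i) := by
  rw [Fintype.sum_option]
  rfl

theorem shift {S : Matrix (Fin n) (Fin n) ℤ} {φ : ℍ → (Fin n → ℂ) → ℂ}
    {f : ℕ → (Fin n → ℤ) → ℂ} (hS : S.IsSymm) (he : ∀ x : Fin n → ℤ, Even (form S x x))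
    (hf : FE φ f) (l : Fin n → ℤ)
    (hell : ∀ (τ : ℍ) (z : Fin n → ℂ), φ τ (fun i => z i + l i * (τ : ℂ)) =
      Complex.exp (-(π * Complex.I * form S (fun i => (l i : ℂ)) (fun i => (l i : ℂ)) * (τ : ℂ))
        - 2 * π * Complex.I * form S (fun i => (l i : ℂ)) z) * φ τ z) (m : ℕ) (x : Fin n → ℤ) :
    (∀ N : ℕ, (N : ℤ) = m + dt x l + form S l l / 2 → f m x = f N (x + S.mulVec l)) ∧
      (m + dt x l + form S l l / 2 < 0 → f m x = 0) := by
  set Q : ℤ := form S l l / 2 with hQ
  let e1 : ℕ × (Fin n → ℤ) → (Option (Fin n) → ℤ) := fun p => idx p.1 p.2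
  let e2 : ℕ × (Fin n → ℤ) → (Option (Fin n) → ℤ) := fun p =>
    idx (p.1 + dt p.2 l + Q) (p.2 + S.mulVec l)
  have he1 : Function.Injective e1 := by
    rintro ⟨a, b⟩ ⟨a', b'⟩ h
    obtain ⟨h1, h2⟩ := idx_inj h
    simp only [Nat.cast_inj] at h1
    exact Prod.ext h1 h2
  have he2 : Function.Injective e2 := by
    rintro ⟨a, b⟩ ⟨a', b'⟩ h
    obtain ⟨h1, h2⟩ := idx_inj h
    simp only [add_left_inj] at h2
    subst h2
    simp only [add_left_inj, Nat.cast_inj] at h1
    exact Prod.ext h1 rfl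
  let a1 : ℕ × (Fin n → ℤ) → ℂ := fun p => f p.1 p.2 * ex (p.1 * Complex.I)
  let a2 : ℕ × (Fin n → ℤ) → ℂ := fun p => f p.1 p.2 *
    ex (((p.1 + dt p.2 l + Q : ℤ) : ℂ) * Complex.I)
  -- the expansions on the torus
  have H1 : ∀ y : Option (Fin n) → ℝ, HasSum (fun p => a1 p * ex (∑ o, ((e1 p o : ℤ) : ℂ) * y o))
      (φ ⟨Complex.I + y none, by simp⟩ (fun i => (y (some i) : ℂ))) := by
    intro y
    have h := hf ⟨Complex.I + y none, by simp⟩ (fun i => (y (some i) : ℂ))
    have e : (fun p : ℕ × (Fin n → ℤ) => a1 p * ex (∑ o, ((e1 p o : ℤ) : ℂ) * y o)) =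
        fun p : ℕ × (Fin n → ℤ) => f p.1 p.2 * Complex.exp (2 * π * Complex.I *
          (p.1 * (Complex.I + y none) + ∑ i, p.2 i * (y (some i) : ℂ))) := by
      funext p
      simp only [a1, e1]
      rw [sum_idx, mul_assoc, ← ex_add]
      unfold ex
      congr 3
      push_cast
      ring
    rw [e]
    exact h
  have H2 : ∀ y : Option (Fin n) → ℝ, HasSum (fun p => a2 p * ex (∑ o, ((e2 p o : ℤ) : ℂ) * y o))
      (φ ⟨Complex.I + y none, by simp⟩ (fun i => (y (some i) : ℂ))) := by
    intro y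
    set σ : ℍ := ⟨Complex.I + y none, by simp⟩ with hσ
    have hσc : (σ : ℂ) = Complex.I + y none := rfl
    have h := hf σ (fun i => (y (some i) : ℂ) + l i * (σ : ℂ))
    rw [hell σ (fun i => (y (some i) : ℂ))] at h
    set B : ℂ := (Q : ℂ) * σ + ∑ i, ((S.mulVec l i : ℤ) : ℂ) * (y (some i) : ℂ) with hB
    have hB' : Complex.exp (-(π * Complex.I * form S (fun i => (l i : ℂ)) (fun i => (l i : ℂ)) *
        (σ : ℂ)) - 2 * π * Complex.I * form S (fun i => (l i : ℂ)) (fun i => (y (some i) : ℂ))) =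
        ex (-B) := by
      rw [form_half S l (he l), form_mulVec S hS]
      unfold ex
      congr 1
      rw [hB]
      ring
    rw [hB'] at h
    have h2 := h.mul_left (ex B)
    rw [← mul_assoc, ← ex_add, add_neg_cancel] at h2
    have hex0 : ex 0 = 1 := by unfold ex; simp
    rw [hex0, one_mul] at h2
    have e : (fun p : ℕ × (Fin n → ℤ) => a2 p * ex (∑ o, ((e2 p o : ℤ) : ℂ) * y o)) =
        fun p : ℕ × (Fin n → ℤ) => ex B * (f p.1 p.2 * Complex.exp (2 * π * Complex.I *
          (p.1 * (σ : ℂ) + ∑ i, p.2 i * ((y (some i) : ℂ) + l i * (σ : ℂ))))) := by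
      funext p
      simp only [a2, e2]
      have e3 : ex B * (f p.1 p.2 * Complex.exp (2 * π * Complex.I *
          (p.1 * (σ : ℂ) + ∑ i, p.2 i * ((y (some i) : ℂ) + l i * (σ : ℂ))))) =
          f p.1 p.2 * ex (B + (p.1 * (σ : ℂ) + ∑ i, p.2 i * ((y (some i) : ℂ) + l i * (σ : ℂ)))) := by
        rw [ex_add B]
        exact mul_left_comm (ex B) (f p.1 p.2) _
      rw [e3, sum_idx, mul_assoc, ← ex_add]
      congr 2
      rw [hB, hσc]
      have e4 : ∑ i, (p.2 i : ℂ) * ((y (some i) : ℂ) + l i * (Complex.I + y none)) =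
          ∑ i, (p.2 i : ℂ) * (y (some i) : ℂ) +
            ((dt p.2 l : ℤ) : ℂ) * (Complex.I + y none) := by
        unfold dt
        push_cast
        rw [Finset.sum_mul, ← Finset.sum_add_distrib]
        exact Finset.sum_congr rfl fun i _ => by ring
      have e5 : ∑ i, (((p.2 + S.mulVec l) i : ℤ) : ℂ) * (y (some i) : ℂ) =
          ∑ i, (p.2 i : ℂ) * (y (some i) : ℂ) +
            ∑ i, ((S.mulVec l i : ℤ) : ℂ) * (y (some i) : ℂ) := by
        rw [← Finset.sum_add_distrib]
        refine Finset.sum_congr rfl fun i _ => ?_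
        rw [Pi.add_apply]
        push_cast
        ring
      rw [e4, e5]
      push_cast
      ring
    rw [e]
    exact h2
  have hex0 : ∀ a : ℂ, ex (∑ o : Option (Fin n), a * 0) = 1 := by
    intro a
    unfold ex
    simp
  have key : ∀ k, Function.extend e2 a2 0 k - Function.extend e1 a1 0 k = 0 := by
    refine coeff_eq_zero _ ?_ ?_
    · have s1 : Summable fun k => Function.extend e1 a1 0 k := by
        have := hasSum_extend_mul he1 a1 (fun k => ex (∑ o, ((k o : ℤ) : ℂ) * ((0 : ℝ) : ℂ)))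
          (H1 (fun _ => 0))
        refine this.summable.congr fun k => ?_
        have : ex (∑ o, ((k o : ℤ) : ℂ) * ((0 : ℝ) : ℂ)) = 1 := by unfold ex; simp
        rw [this, mul_one]
      have s2 : Summable fun k => Function.extend e2 a2 0 k := by
        have := hasSum_extend_mul he2 a2 (fun k => ex (∑ o, ((k o : ℤ) : ℂ) * ((0 : ℝ) : ℂ)))
          (H2 (fun _ => 0))
        refine this.summable.congr fun k => ?_
        have : ex (∑ o, ((k o : ℤ) : ℂ) * ((0 : ℝ) : ℂ)) = 1 := by unfold ex; simp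
        rw [this, mul_one]
      exact (s2.sub s1).norm
    · intro y
      have h1 := hasSum_extend_mul he1 a1 (fun k => ex (∑ o, ((k o : ℤ) : ℂ) * y o)) (H1 y)
      have h2 := hasSum_extend_mul he2 a2 (fun k => ex (∑ o, ((k o : ℤ) : ℂ) * y o)) (H2 y)
      have h3 := h2.sub h1
      rw [sub_self] at h3
      have e : (fun k => (Function.extend e2 a2 0 k - Function.extend e1 a1 0 k) *
          ex (∑ o, ((k o : ℤ) : ℂ) * y o)) = fun k =>
          Function.extend e2 a2 0 k * ex (∑ o, ((k o : ℤ) : ℂ) * y o) -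
          Function.extend e1 a1 0 k * ex (∑ o, ((k o : ℤ) : ℂ) * y o) := by
        funext k
        ring
      rw [e]
      exact h3.tsum_eq
  have hk := key (e2 (m, x))
  rw [he2.extend_apply] at hk
  constructor
  · intro N hN
    have : e2 (m, x) = e1 (N, x + S.mulVec l) := by
      simp only [e1, e2]
      rw [hN]
    rw [this, he1.extend_apply] at hk
    simp only [a1, a2] at hk
    rw [← hN] at hk
    have hne : ex (((N : ℤ) : ℂ) * Complex.I) ≠ 0 := Complex.exp_ne_zero _
    have h2 : (f m x - f N (x + S.mulVec l)) * ex (((N : ℤ) : ℂ) * Complex.I) = 0 := by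
      push_cast at hk ⊢
      linear_combination hk
    rcases mul_eq_zero.1 h2 with h | h
    · exact sub_eq_zero.1 h
    · exact absurd h hne
  · intro hneg
    have hnot : ¬ ∃ p, e1 p = e2 (m, x) := by
      rintro ⟨⟨a, b⟩, hab⟩
      obtain ⟨h1, -⟩ := idx_inj hab
      simp only at h1
      omega
    rw [Function.extend_apply' _ _ _ hnot] at hk
    simp only [a2, Pi.zero_apply, sub_zero] at hk
    rcases mul_eq_zero.1 hk with h | h
    · exact h
    · exact absurd h (Complex.exp_ne_zero _)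

end

end Pool.Agent.R396.WJ
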