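import Pool.Agent.R396.WJ.Van

set_option autoImplicit false

/-!
# The lattice is irreducible and not unimodular
-/

namespace Pool.Agent.R396.WJ

open UpperHalfPlane
open scoped MatrixGroups

theorem S15_posdef : IsEvenPosDef S15 := ⟨S15_symm, S15_even, S15_pos⟩

/-- unit vectors -/
def E (i : Fin 15) : Fin 15 → ℤ := Pi.single i 1

theorem form_E : ∀ i j : Fin 15, form S15 (E i) (E j) = S15 i j := by
  decide +kernel

theorem form_E_left (i : Fin 15) (y : Fin 15 → ℤ) : form S15 (E i) y = ∑ j, S15 i j * y j := by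
  unfold form E
  rw [Finset.sum_eq_single i]
  · refine Finset.sum_congr rfl fun j _ => ?_
    simp
  · intro b _ hb
    refine Finset.sum_eq_zero fun j _ => ?_
    rw [Pi.single_eq_of_ne hb]
    ring
  · intro h
    exact absurd (Finset.mem_univ _) h

theorem form_symm (x y : Fin 15 → ℤ) : form S15 x y = form S15 y x := by
  rw [form_S15, form_S15]
  ring

theorem form_add_left (x y z : Fin 15 → ℤ) : form S15 (x + y) z = form S15 x z + form S15 y z := by
  simp only [form_S15, Pi.add_apply]
  ring

theorem form_add_right (x y z : Fin 15 → ℤ) :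
    form S15 x (y + z) = form S15 x y + form S15 x z := by
  simp only [form_S15, Pi.add_apply]
  ring

theorem form_zero_left (x : Fin 15 → ℤ) : form S15 0 x = 0 := by
  simp [form]

theorem S15_nonneg (x : Fin 15 → ℤ) : 0 ≤ form S15 x x := by
  by_cases h : x = 0
  · rw [h, form_zero_left]
  · exact (S15_pos x h).le

section

variable {A B : AddSubgroup (Fin 15 → ℤ)} (hAB : IsCompl A B)
  (ho : ∀ a ∈ A, ∀ b ∈ B, form S15 a b = 0)

include hAB

theorem split (x : Fin 15 → ℤ) : ∃ a ∈ A, ∃ b ∈ B, a + b = x := by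
  have h : x ∈ A ⊔ B := by rw [hAB.sup_eq_top]; trivial
  exact AddSubgroup.mem_sup.1 h

include ho

theorem root_mem (r : Fin 15 → ℤ) (hr : form S15 r r = 2) : r ∈ A ∨ r ∈ B := by
  obtain ⟨a, ha, b, hb, rfl⟩ := split hAB r
  rw [form_add_left, form_add_right, form_add_right, ho a ha b hb, form_symm b a,
    ho a ha b hb] at hr
  have h1 := S15_even a
  have h2 := S15_even b
  rw [Int.even_iff] at h1 h2
  have h3 := S15_nonneg a
  have h4 := S15_nonneg b
  by_cases ha0 : a = 0
  · right
    rw [ha0, zero_add]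
    exact hb
  · left
    have h5 := S15_pos a ha0
    have hb0 : b = 0 := by
      by_contra hb0
      have := S15_pos b hb0
      omega
    rw [hb0, add_zero]
    exact ha

theorem edge_mem {i j : Fin 15} (hj : form S15 (E j) (E j) = 2)
    (hij : form S15 (E i) (E j) ≠ 0) (h : E i ∈ A) : E j ∈ A := by
  rcases root_mem hAB ho (E j) hj with h1 | h1
  · exact h1
  · exact absurd (ho _ h _ h1) hij

theorem one_side (h0 : E 0 ∈ A) : B = ⊥ := by
  have hE : ∀ i : Fin 15, i ≠ 14 → E i ∈ A := by
    have step : ∀ i j : Fin 15, S15 j j = 2 → S15 i j ≠ 0 → E i ∈ A → E j ∈ A := by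
      intro i j hj hij h
      exact edge_mem hAB ho (by rw [form_E]; exact hj) (by rw [form_E]; exact hij) h
    have h1 := step 0 1 (by decide) (by decide) h0
    have h2 := step 1 2 (by decide) (by decide) h1
    have h3 := step 2 3 (by decide) (by decide) h2
    have h4 := step 3 4 (by decide) (by decide) h3
    have h5 := step 4 5 (by decide) (by decide) h4
    have h6 := step 5 6 (by decide) (by decide) h5
    have h7 := step 6 7 (by decide) (by decide) h6
    have h8 := step 7 8 (by decide) (by decide) h7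
    have h9 := step 8 9 (by decide) (by decide) h8
    have h10 := step 9 10 (by decide) (by decide) h9
    have h11 := step 10 11 (by decide) (by decide) h10
    have h12 := step 11 12 (by decide) (by decide) h11
    have h13 := step 11 13 (by decide) (by decide) h11
    intro i hi
    fin_cases i
    · exact h0
    · exact h1
    · exact h2
    · exact h3
    · exact h4
    · exact h5
    · exact h6
    · exact h7
    · exact h8
    · exact h9
    · exact h10
    · exact h11
    · exact h12
    · exact h13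
    · exact absurd rfl hi
  have hB : ∀ b ∈ B, b 1 = 2 * b 0 ∧ b 2 = 3 * b 0 ∧ b 3 = 4 * b 0 ∧ b 4 = 5 * b 0 ∧
      b 5 = 6 * b 0 ∧ b 6 = 7 * b 0 ∧ b 7 = 8 * b 0 ∧ b 8 = 9 * b 0 ∧ b 9 = 10 * b 0 ∧
      b 10 = 11 * b 0 ∧ b 11 = 12 * b 0 ∧ b 12 = 6 * b 0 ∧ b 13 = 7 * b 0 ∧ b 14 = 2 * b 0 := by
    intro b hb
    have h := fun i hi => ho (E i) (hE i hi) b hb
    have g0 := h 0 (by decide)
    have g1 := h 1 (by decide)
    have g2 := h 2 (by decide)
    have g3 := h 3 (by decide)
    have g4 := h 4 (by decide)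
    have g5 := h 5 (by decide)
    have g6 := h 6 (by decide)
    have g7 := h 7 (by decide)
    have g8 := h 8 (by decide)
    have g9 := h 9 (by decide)
    have g10 := h 10 (by decide)
    have g11 := h 11 (by decide)
    have g12 := h 12 (by decide)
    have g13 := h 13 (by decide)
    rw [form_E_left] at g0 g1 g2 g3 g4 g5 g6 g7 g8 g9 g10 g11 g12 g13
    simp only [Fin.sum_univ_succ, Fin.sum_univ_zero, S15] at g0 g1 g2 g3 g4 g5 g6 g7 g8 g9 g10 g11 g12 g13
    simp at g0 g1 g2 g3 g4 g5 g6 g7 g8 g9 g10 g11 g12 g13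
    have k1 : b 1 = 2 * b 0 := by linarith
    have k2 : b 2 = 3 * b 0 := by linarith
    have k3 : b 3 = 4 * b 0 := by linarith
    have k4 : b 4 = 5 * b 0 := by linarith
    have k5 : b 5 = 6 * b 0 := by linarith
    have k6 : b 6 = 7 * b 0 := by linarith
    have k7 : b 7 = 8 * b 0 := by linarith
    have k8 : b 8 = 9 * b 0 := by linarith
    have k9 : b 9 = 10 * b 0 := by linarith
    have k10 : b 10 = 11 * b 0 := by linarith
    have k11 : b 11 = 12 * b 0 := by linarith
    have k12 : b 12 = 6 * b 0 := by linarith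
    have k13 : b 13 = 7 * b 0 := by linarith
    have k14 : b 14 = 2 * b 0 := by linarith
    exact ⟨k1, k2, k3, k4, k5, k6, k7, k8, k9, k10, k11, k12, k13, k14⟩
  have h14 : E 14 ∈ A := by
    obtain ⟨a, ha, b, hb, hab⟩ := split hAB (E 14)
    obtain ⟨k1, k2, k3, k4, k5, k6, k7, k8, k9, k10, k11, k12, k13, k14⟩ := hB b hb
    have h1 : form S15 (E 14) b = b 0 := by
      rw [form_E_left]
      simp only [Fin.sum_univ_succ, Fin.sum_univ_zero, S15]
      simp
      linarith
    have h2 : form S15 (E 14) b = form S15 b b := by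
      rw [← hab, form_add_left, ho a ha b hb, zero_add]
    have h3 : form S15 b b = 2 * b 0 ^ 2 := by
      rw [form_S15, k1, k2, k3, k4, k5, k6, k7, k8, k9, k10, k11, k12, k13, k14]
      ring
    have h4 : b 0 = 2 * b 0 ^ 2 := by rw [← h3, ← h2, h1]
    have h5 : b 0 = 0 := by
      rcases lt_trichotomy (b 0) 0 with h | h | h
      · nlinarith
      · exact h
      · nlinarith
    have hb0 : b = 0 := by
      by_contra hne
      have := S15_pos b hne
      rw [h3, h5] at this
      norm_num at this
    rw [← hab, hb0, add_zero]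
    exact ha
  have hall : ∀ x : Fin 15 → ℤ, x ∈ A := by
    intro x
    have : x = ∑ i, x i • E i := by
      funext j
      rw [Finset.sum_apply]
      unfold E
      simp [Pi.single_apply]
    rw [this]
    refine A.sum_mem fun i _ => A.zsmul_mem ?_ _
    by_cases hi : i = 14
    · rw [hi]; exact h14
    · exact hE i hi
  rw [eq_bot_iff]
  intro b hb
  have : b ∈ A ⊓ B := ⟨hall b, hb⟩
  rw [hAB.inf_eq_bot] at this
  exact this

end

theorem S15_irreducible : IsIrreducible S15 := by
  intro A B hAB ho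
  rcases root_mem hAB ho (E 0) (by rw [form_E]; decide) with h | h
  · right
    exact one_side hAB ho h
  · left
    exact one_side hAB.symm (fun a ha b hb => by rw [form_symm]; exact ho b hb a ha) h

def wv : Fin 15 → ℤ := ![3, 4, 5, 6, 7, 8, 9, 10, 11, 12, 13, 14, 7, 8, 2]

theorem S15_wv : S15.mulVec wv = (2 : ℤ) • base := by decide +kernel

theorem S15_det : S15.det ≠ 1 := by
  intro h
  have h1 : S15.adjugate.mulVec (S15.mulVec wv) = wv := by
    rw [Matrix.mulVec_mulVec, Matrix.adjugate_mul, h, one_smul, Matrix.one_mulVec]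
  rw [S15_wv, Matrix.mulVec_smul] at h1
  have h2 := congrFun h1 0
  have h3 : wv 0 = 3 := rfl
  rw [h3, Pi.smul_apply, smul_eq_mul] at h2
  omega

theorem isWeakJacobiForm_zero {n : ℕ} (S : Matrix (Fin n) (Fin n) ℤ) (k : ℤ) :
    IsWeakJacobiForm S k (fun _ _ => 0) where
  holo := differentiableOn_const _
  modular := fun _ _ _ => by simp
  elliptic := fun _ _ _ _ => by simp
  fourier := ⟨fun _ _ => 0, fun τ z => by simp [hasSum_zero]⟩

theorem basis_ne {n : ℕ} {S : Matrix (Fin n) (Fin n) ℤ}
    (hS : ∀ φ, IsWeakJacobiForm S 0 φ → ∀ τ z, φ τ z = 0) {ι : Type} {k : ι → ℤ}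
    {φ : ι → ℍ → (Fin n → ℂ) → ℂ} (h : IsHomogeneousBasis S k φ) (i : ι) : k i ≠ 0 := by
  classical
  intro hk
  have hφ : ∀ τ z, φ i τ z = 0 := hS _ (by rw [← hk]; exact h.mem i)
  obtain ⟨g, -, hg⟩ := h.basis 0 (fun _ _ => 0) (isWeakJacobiForm_zero S 0)
  obtain ⟨u, hu⟩ : ∃ u : ModularForm 𝒮ℒ (0 - k i), u ≠ 0 := by
    have : 0 - k i = 0 := by rw [hk]; rfl
    rw [this]
    exact ⟨1, fun h => by
      have h1 : (1 : ModularForm 𝒮ℒ 0) UpperHalfPlane.I = (0 : ModularForm 𝒮ℒ 0) UpperHalfPlane.I :=
        DFunLike.congr_fun h _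
      simp at h1⟩
  have h1 := hg (fun _ => 0) ⟨by simp, fun τ z => by simp⟩
  have h2 := hg (Function.update (fun _ => 0) i u) ⟨by
    refine (Set.finite_singleton i).subset fun j hj => ?_
    by_contra hne
    rw [Set.mem_singleton_iff] at hne
    simp [Function.update_of_ne hne] at hj, fun τ z => by
    symm
    refine finsum_eq_zero_of_forall_eq_zero fun j => ?_
    by_cases hj : j = i
    · subst hj
      rw [hφ, mul_zero]
    · rw [Function.update_of_ne hj]
      simp⟩
  have h3 := congrFun (h1.trans h2.symm) i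
  simp only [Function.update_self] at h3
  exact hu h3.symm

end Pool.Agent.R396.WJ
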