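import Pool.Agent.R396.WJ.Defs

set_option autoImplicit false

/-!
# The lattice: the orthogonal complement of a root in `D₁₆⁺`
-/

namespace Pool.Agent.R396.WJ

/-- Gram matrix of the sublattice `x₁ = x₂` of `D₁₆⁺` -/
def S15 : Matrix (Fin 15) (Fin 15) ℤ :=
  ![![2, -1, 0, 0, 0, 0, 0, 0, 0, 0, 0, 0, 0, 0, 0],
    ![-1, 2, -1, 0, 0, 0, 0, 0, 0, 0, 0, 0, 0, 0, 0],
    ![0, -1, 2, -1, 0, 0, 0, 0, 0, 0, 0, 0, 0, 0, 0],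
    ![0, 0, -1, 2, -1, 0, 0, 0, 0, 0, 0, 0, 0, 0, 0],
    ![0, 0, 0, -1, 2, -1, 0, 0, 0, 0, 0, 0, 0, 0, 0],
    ![0, 0, 0, 0, -1, 2, -1, 0, 0, 0, 0, 0, 0, 0, 0],
    ![0, 0, 0, 0, 0, -1, 2, -1, 0, 0, 0, 0, 0, 0, 0],
    ![0, 0, 0, 0, 0, 0, -1, 2, -1, 0, 0, 0, 0, 0, 0],
    ![0, 0, 0, 0, 0, 0, 0, -1, 2, -1, 0, 0, 0, 0, 0],
    ![0, 0, 0, 0, 0, 0, 0, 0, -1, 2, -1, 0, 0, 0, 0],
    ![0, 0, 0, 0, 0, 0, 0, 0, 0, -1, 2, -1, 0, 0, 0],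
    ![0, 0, 0, 0, 0, 0, 0, 0, 0, 0, -1, 2, -1, -1, 0],
    ![0, 0, 0, 0, 0, 0, 0, 0, 0, 0, 0, -1, 2, 0, 0],
    ![0, 0, 0, 0, 0, 0, 0, 0, 0, 0, 0, -1, 0, 2, -1],
    ![0, 0, 0, 0, 0, 0, 0, 0, 0, 0, 0, 0, 0, -1, 4]]

theorem form_S15 (x y : Fin 15 → ℤ) : form S15 x y =
    2 * (x 0 * y 0 + x 1 * y 1 + x 2 * y 2 + x 3 * y 3 + x 4 * y 4 + x 5 * y 5 + x 6 * y 6 + x 7 * y 7 + x 8 * y 8 + x 9 * y 9 + x 10 * y 10 + x 11 * y 11 + x 12 * y 12 + x 13 * y 13) + 4 * (x 14 * y 14) - ((x 0 * y 1 + x 1 * y 0) + (x 1 * y 2 + x 2 * y 1) + (x 2 * y 3 + x 3 * y 2) + (x 3 * y 4 + x 4 * y 3) + (x 4 * y 5 + x 5 * y 4) + (x 5 * y 6 + x 6 * y 5) + (x 6 * y 7 + x 7 * y 6) + (x 7 * y 8 + x 8 * y 7) + (x 8 * y 9 + x 9 * y 8) + (x 9 * y 10 + x 10 * y 9) + (x 10 * y 11 + x 11 * y 10) + (x 11 * y 12 + x 12 * y 11) + (x 11 * y 13 + x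 13 * y 11) + (x 13 * y 14 + x 14 * y 13)) := by
  simp only [form, Fin.sum_univ_succ, Fin.sum_univ_zero, S15]
  simp
  ring

/-- `x · v` -/
def dot15 (x v : Fin 15 → ℤ) : ℤ := ∑ i, x i * v i

/-- coordinates of the lattice vectors -/
def lam (u : Fin 14 → ℤ) (m e : ℤ) : Fin 15 → ℤ :=
  ![u 0, u 0 + u 1, u 0 + u 1 + u 2, u 0 + u 1 + u 2 + u 3, u 0 + u 1 + u 2 + u 3 + u 4, u 0 + u 1 + u 2 + u 3 + u 4 + u 5, u 0 + u 1 + u 2 + u 3 + u 4 + u 5 + u 6, u 0 + u 1 + u 2 + u 3 + u 4 + u 5 + u 6 + u 7, u 0 + u 1 + u 2 + u 3 + u 4 + u 5 + u 6 + u 7 + u 8, u 0 + u 1 + u 2 + u 3 + u 4 + u 5 + u 6 + u 7 + u 8 + u 9, u 0 + u 1 + u 2 + u 3 + u 4 + u 5 + u 6 + u 7 + u 8 + u 9 + u 10, u 0 + u 1 + u 2 + u 3 + u 4 + u 5 + u 6 + u 7 + u 8 + u 9 + u 10 + u 11, m - u 13, m, e]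

/-- coordinates of the dual vectors -/
def YY (x : Fin 15 → ℤ) : Fin 14 → ℤ :=
  ![2 * x 0 + 2 * x 1 + 2 * x 2 + 2 * x 3 + 2 * x 4 + 2 * x 5 + 2 * x 6 + 2 * x 7 + 2 * x 8 + 2 * x 9 + 2 * x 10 + 2 * x 11 + x 12 + x 13, 2 * x 1 + 2 * x 2 + 2 * x 3 + 2 * x 4 + 2 * x 5 + 2 * x 6 + 2 * x 7 + 2 * x 8 + 2 * x 9 + 2 * x 10 + 2 * x 11 + x 12 + x 13, 2 * x 2 + 2 * x 3 + 2 * x 4 + 2 * x 5 + 2 * x 6 + 2 * x 7 + 2 * x 8 + 2 * x 9 + 2 * x 10 + 2 * x 11 + x 12 + x 13, 2 * x 3 + 2 * x 4 + 2 * x 5 + 2 * x 6 + 2 * x 7 + 2 * x 8 + 2 * x 9 + 2 * x 10 + 2 * x 11 + x 12 + x 13, 2 * x 4 + 2 * x 5 + 2 * x 6 + 2 * x 7 + 2 * x 8 + 2 * x 9 + 2 * x 10 + 2 * x 11 + x 12 + x 13, 2 * x 5 + 2 * x 6 + 2 * x 7 + 2 * x 8 + 2 * x 9 + 2 * x 10 + 2 * x 11 + x 12 + x 13, 2 * x 6 + 2 * x 7 + 2 * x 8 + 2 * x 9 + 2 * x 10 + 2 * x 11 + x 12 + x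 13, 2 * x 7 + 2 * x 8 + 2 * x 9 + 2 * x 10 + 2 * x 11 + x 12 + x 13, 2 * x 8 + 2 * x 9 + 2 * x 10 + 2 * x 11 + x 12 + x 13, 2 * x 9 + 2 * x 10 + 2 * x 11 + x 12 + x 13, 2 * x 10 + 2 * x 11 + x 12 + x 13, 2 * x 11 + x 12 + x 13, x 12 + x 13, x 13 - x 12]

theorem S15_symm : S15.IsSymm := by
  unfold Matrix.IsSymm
  ext i j
  revert i j
  decide

theorem form_half15 (x : Fin 15 → ℤ) : form S15 x x = 2 * (x 0 * x 0 + x 1 * x 1 + x 2 * x 2 + x 3 * x 3 + x 4 * x 4 + x 5 * x 5 + x 6 * x 6 + x 7 * x 7 + x 8 * x 8 + x 9 * x 9 + x 10 * x 10 + x 11 * x 11 + x 12 * x 12 + x 13 * x 13 + 2 * (x 14 * x 14) - (x 0 * x 1 + x 1 * x 2 + x 2 * x 3 + x 3 * x 4 + x 4 * x 5 + x 5 * x 6 + x 6 * x 7 + x 7 * x 8 + x 8 * x 9 + x 9 * x 10 + x 10 * x 11 + x 11 * x 12 + x 11 * x 13 + x 13 * x 14)) := by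
  rw [form_S15]
  ring

theorem form_sq15 (x : Fin 15 → ℤ) : 4 * form S15 x x = 2 * x 14 ^ 2 + (2 * x 0 - x 14) ^ 2 + (2 * (x 1 - x 0) - x 14) ^ 2 + (2 * (x 2 - x 1) - x 14) ^ 2 + (2 * (x 3 - x 2) - x 14) ^ 2 + (2 * (x 4 - x 3) - x 14) ^ 2 + (2 * (x 5 - x 4) - x 14) ^ 2 + (2 * (x 6 - x 5) - x 14) ^ 2 + (2 * (x 7 - x 6) - x 14) ^ 2 + (2 * (x 8 - x 7) - x 14) ^ 2 + (2 * (x 9 - x 8) - x 14) ^ 2 + (2 * (x 10 - x 9) - x 14) ^ 2 + (2 * (x 11 - x 10) - x 14) ^ 2 + (2 * (x 12 + x 13 - x 11) - x 14) ^ 2 + (2 * (x 13 - x 12) - x 14) ^ 2 := by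
  rw [form_S15]
  ring

theorem S15_even (x : Fin 15 → ℤ) : Even (form S15 x x) := by
  rw [form_half15]
  exact even_two_mul _

theorem S15_pos (x : Fin 15 → ℤ) (hx : x ≠ 0) : 0 < form S15 x x := by
  have h := form_sq15 x
  by_contra hneg
  rw [not_lt] at hneg
  apply hx
  have hall : 2 * x 14 ^ 2 + (2 * x 0 - x 14) ^ 2 + (2 * (x 1 - x 0) - x 14) ^ 2 + (2 * (x 2 - x 1) - x 14) ^ 2 + (2 * (x 3 - x 2) - x 14) ^ 2 + (2 * (x 4 - x 3) - x 14) ^ 2 + (2 * (x 5 - x 4) - x 14) ^ 2 + (2 * (x 6 - x 5) - x 14) ^ 2 + (2 * (x 7 - x 6) - x 14) ^ 2 + (2 * (x 8 - x 7) - x 14) ^ 2 + (2 * (x 9 - x 8) - x 14) ^ 2 + (2 * (x 10 - x 9) - x 14) ^ 2 + (2 * (x 11 - x 10) - x 14) ^ 2 + (2 * (x 12 + x 13 - x 11) - x 14) ^ 2 + (2 * (x 13 - x 12) - x 14) ^ 2 ≤ 0 := by rw [← h]; linarith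
  have e14 : x 14 = 0 := by
    have : x 14 ^ 2 ≤ 0 := by linarith [sq_nonneg (2 * x 0 - x 14), sq_nonneg (2 * (x 1 - x 0) - x 14), sq_nonneg (2 * (x 2 - x 1) - x 14), sq_nonneg (2 * (x 3 - x 2) - x 14), sq_nonneg (2 * (x 4 - x 3) - x 14), sq_nonneg (2 * (x 5 - x 4) - x 14), sq_nonneg (2 * (x 6 - x 5) - x 14), sq_nonneg (2 * (x 7 - x 6) - x 14), sq_nonneg (2 * (x 8 - x 7) - x 14), sq_nonneg (2 * (x 9 - x 8) - x 14), sq_nonneg (2 * (x 10 - x 9) - x 14), sq_nonneg (2 * (x 11 - x 10) - x 14), sq_nonneg (2 * (x 12 + x 13 - x 11) - x 14), sq_nonneg (2 * (x 13 - x 12) - x 14)]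
    exact pow_eq_zero_iff two_ne_zero |>.1 (le_antisymm this (sq_nonneg _))
  rw [e14] at hall
  have key : ∀ (a : Fin 14 → ℤ), (∑ i, a i ^ 2) ≤ 0 → ∀ i, a i = 0 := by
    intro a ha i
    have h1 : a i ^ 2 ≤ ∑ i, a i ^ 2 := Finset.single_le_sum (f := fun i => a i ^ 2)
      (fun i _ => sq_nonneg (a i)) (Finset.mem_univ i)
    exact pow_eq_zero_iff two_ne_zero |>.1 (le_antisymm (h1.trans ha) (sq_nonneg _))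
  have hk := key ![2 * x 0 - 0, 2 * (x 1 - x 0) - 0, 2 * (x 2 - x 1) - 0, 2 * (x 3 - x 2) - 0, 2 * (x 4 - x 3) - 0, 2 * (x 5 - x 4) - 0, 2 * (x 6 - x 5) - 0, 2 * (x 7 - x 6) - 0, 2 * (x 8 - x 7) - 0, 2 * (x 9 - x 8) - 0, 2 * (x 10 - x 9) - 0, 2 * (x 11 - x 10) - 0, 2 * (x 12 + x 13 - x 11) - 0, 2 * (x 13 - x 12) - 0] (by
    simp only [Fin.sum_univ_succ, Fin.sum_univ_zero]
    simp
    linarith)
  have h0 := hk 0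
  have h1 := hk 1
  have h2 := hk 2
  have h3 := hk 3
  have h4 := hk 4
  have h5 := hk 5
  have h6 := hk 6
  have h7 := hk 7
  have h8 := hk 8
  have h9 := hk 9
  have h10 := hk 10
  have h11 := hk 11
  have h12 := hk 12
  have h13 := hk 13
  simp at h0 h1 h2 h3 h4 h5 h6 h7 h8 h9 h10 h11 h12 h13
  funext i
  fin_cases i <;> simp <;> omega

theorem min_ineq {x : Fin 15 → ℤ} (hx : ∀ l, 0 ≤ 2 * dot15 x l + form S15 l l)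
    (u : Fin 14 → ℤ) (m e : ℤ) (hu : ∑ i, u i = 2 * m) :
    0 ≤ ∑ i, YY x i * u i + 2 * e * x 14 + 4 * e ^ 2 - 2 * e * m + ∑ i, u i ^ 2 := by
  have h := hx (lam u m e)
  rw [form_S15] at h
  have e1 : 2 * dot15 x (lam u m e) = ∑ i, YY x i * u i + 2 * e * x 14 := by
    simp only [dot15, Fin.sum_univ_succ, Fin.sum_univ_zero, lam, YY] at hu ⊢
    simp at hu ⊢
    linear_combination (-(x 12 + x 13)) * hu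
  rw [e1] at h
  have e2 : ∀ y : Fin 15 → ℤ, y = lam u m e →
    2 * (y 0 * y 0 + y 1 * y 1 + y 2 * y 2 + y 3 * y 3 + y 4 * y 4 + y 5 * y 5 + y 6 * y 6 + y 7 * y 7 + y 8 * y 8 + y 9 * y 9 + y 10 * y 10 + y 11 * y 11 + y 12 * y 12 + y 13 * y 13) + 4 * (y 14 * y 14) - ((y 0 * y 1 + y 1 * y 0) + (y 1 * y 2 + y 2 * y 1) + (y 2 * y 3 + y 3 * y 2) + (y 3 * y 4 + y 4 * y 3) + (y 4 * y 5 + y 5 * y 4) + (y 5 * y 6 + y 6 * y 5) + (y 6 * y 7 + y 7 * y 6) + (y 7 * y 8 + y 8 * y 7) + (y 8 * y 9 + y 9 * y 8) + (y 9 * y 10 + y 10 * y 9) + (y 10 * y 11 + y 11 * y 10) + (y 11 * y 12 + y 12 * y 11) + (y 11 * y 13 + y 13 * y 11) + (y 13 * y 14 + y 14 * y 13)) =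
    4 * e ^ 2 - 2 * e * m + ∑ i, u i ^ 2 := by
    rintro y rfl
    simp only [Fin.sum_univ_succ, Fin.sum_univ_zero, lam] at hu ⊢
    simp at hu ⊢
    linear_combination (-(2 * u 12 + 2 * m - (u 0 + u 1 + u 2 + u 3 + u 4 + u 5 + u 6 + u 7 + u 8 + u 9 + u 10 + u 11 + u 12 + u 13))) * hu
  have := e2 _ rfl
  linarith

def RR (Y : Fin 14 → ℤ) (t : ℤ) : Fin 15 → ℤ :=
  ![Y 0 - Y 1, Y 1 - Y 2, Y 2 - Y 3, Y 3 - Y 4, Y 4 - Y 5, Y 5 - Y 6, Y 6 - Y 7, Y 7 - Y 8, Y 8 - Y 9, Y 9 - Y 10, Y 10 - Y 11, Y 11 - Y 12, Y 12 - Y 13, Y 12 + Y 13, 2 * t]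

theorem rec_x (x : Fin 15 → ℤ) (i : Fin 15) : 2 * x i = RR (YY x) (x 14) i := by
  fin_cases i <;> simp [YY, RR] <;> ring

theorem YY_inj {x y : Fin 15 → ℤ} (h : ∀ i, YY x i = YY y i) (h14 : x 14 = y 14) : x = y := by
  funext i
  have h1 := rec_x x i
  have h2 := rec_x y i
  have h3 : YY x = YY y := funext h
  rw [h3, h14, ← h2] at h1
  linarith

theorem YY_parity (x : Fin 15 → ℤ) (i : Fin 14) : YY x i % 2 = (x 12 + x 13) % 2 := by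
  fin_cases i <;> simp [YY] <;> omega

/-- the lattice vectors moving the base vector to the other ones -/
def tab : Fin 56 → Fin 15 → ℤ :=
  ![![0, 0, 0, 0, 0, 0, 0, 0, 0, 0, 0, 0, 0, 0, 0],
    ![-1, -2, -3, -4, -5, -6, -7, -8, -9, -10, -11, -12, -6, -7, -2],
    ![-3, -4, -5, -6, -7, -8, -9, -10, -11, -12, -13, -14, -7, -8, -2],
    ![-2, -2, -2, -2, -2, -2, -2, -2, -2, -2, -2, -2, -1, -1, 0],
    ![-1, 0, 0, 0, 0, 0, 0, 0, 0, 0, 0, 0, 0, 0, 0],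
    ![-2, -2, -3, -4, -5, -6, -7, -8, -9, -10, -11, -12, -6, -7, -2],
    ![-2, -4, -5, -6, -7, -8, -9, -10, -11, -12, -13, -14, -7, -8, -2],
    ![-1, -2, -2, -2, -2, -2, -2, -2, -2, -2, -2, -2, -1, -1, 0],
    ![-1, -1, 0, 0, 0, 0, 0, 0, 0, 0, 0, 0, 0, 0, 0],
    ![-2, -3, -3, -4, -5, -6, -7, -8, -9, -10, -11, -12, -6, -7, -2],
    ![-2, -3, -5, -6, -7, -8, -9, -10, -11, -12, -13, -14, -7, -8, -2],
    ![-1, -1, -2, -2, -2, -2, -2, -2, -2, -2, -2, -2, -1, -1, 0],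
    ![-1, -1, -1, 0, 0, 0, 0, 0, 0, 0, 0, 0, 0, 0, 0],
    ![-2, -3, -4, -4, -5, -6, -7, -8, -9, -10, -11, -12, -6, -7, -2],
    ![-2, -3, -4, -6, -7, -8, -9, -10, -11, -12, -13, -14, -7, -8, -2],
    ![-1, -1, -1, -2, -2, -2, -2, -2, -2, -2, -2, -2, -1, -1, 0],
    ![-1, -1, -1, -1, 0, 0, 0, 0, 0, 0, 0, 0, 0, 0, 0],
    ![-2, -3, -4, -5, -5, -6, -7, -8, -9, -10, -11, -12, -6, -7, -2],
    ![-2, -3, -4, -5, -7, -8, -9, -10, -11, -12, -13, -14, -7, -8, -2],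
    ![-1, -1, -1, -1, -2, -2, -2, -2, -2, -2, -2, -2, -1, -1, 0],
    ![-1, -1, -1, -1, -1, 0, 0, 0, 0, 0, 0, 0, 0, 0, 0],
    ![-2, -3, -4, -5, -6, -6, -7, -8, -9, -10, -11, -12, -6, -7, -2],
    ![-2, -3, -4, -5, -6, -8, -9, -10, -11, -12, -13, -14, -7, -8, -2],
    ![-1, -1, -1, -1, -1, -2, -2, -2, -2, -2, -2, -2, -1, -1, 0],
    ![-1, -1, -1, -1, -1, -1, 0, 0, 0, 0, 0, 0, 0, 0, 0],
    ![-2, -3, -4, -5, -6, -7, -7, -8, -9, -10, -11, -12, -6, -7, -2],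
    ![-2, -3, -4, -5, -6, -7, -9, -10, -11, -12, -13, -14, -7, -8, -2],
    ![-1, -1, -1, -1, -1, -1, -2, -2, -2, -2, -2, -2, -1, -1, 0],
    ![-1, -1, -1, -1, -1, -1, -1, 0, 0, 0, 0, 0, 0, 0, 0],
    ![-2, -3, -4, -5, -6, -7, -8, -8, -9, -10, -11, -12, -6, -7, -2],
    ![-2, -3, -4, -5, -6, -7, -8, -10, -11, -12, -13, -14, -7, -8, -2],
    ![-1, -1, -1, -1, -1, -1, -1, -2, -2, -2, -2, -2, -1, -1, 0],
    ![-1, -1, -1, -1, -1, -1, -1, -1, 0, 0, 0, 0, 0, 0, 0],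
    ![-2, -3, -4, -5, -6, -7, -8, -9, -9, -10, -11, -12, -6, -7, -2],
    ![-2, -3, -4, -5, -6, -7, -8, -9, -11, -12, -13, -14, -7, -8, -2],
    ![-1, -1, -1, -1, -1, -1, -1, -1, -2, -2, -2, -2, -1, -1, 0],
    ![-1, -1, -1, -1, -1, -1, -1, -1, -1, 0, 0, 0, 0, 0, 0],
    ![-2, -3, -4, -5, -6, -7, -8, -9, -10, -10, -11, -12, -6, -7, -2],
    ![-2, -3, -4, -5, -6, -7, -8, -9, -10, -12, -13, -14, -7, -8, -2],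
    ![-1, -1, -1, -1, -1, -1, -1, -1, -1, -2, -2, -2, -1, -1, 0],
    ![-1, -1, -1, -1, -1, -1, -1, -1, -1, -1, 0, 0, 0, 0, 0],
    ![-2, -3, -4, -5, -6, -7, -8, -9, -10, -11, -11, -12, -6, -7, -2],
    ![-2, -3, -4, -5, -6, -7, -8, -9, -10, -11, -13, -14, -7, -8, -2],
    ![-1, -1, -1, -1, -1, -1, -1, -1, -1, -1, -2, -2, -1, -1, 0],
    ![-1, -1, -1, -1, -1, -1, -1, -1, -1, -1, -1, 0, 0, 0, 0],
    ![-2, -3, -4, -5, -6, -7, -8, -9, -10, -11, -12, -12, -6, -7, -2],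
    ![-2, -3, -4, -5, -6, -7, -8, -9, -10, -11, -12, -14, -7, -8, -2],
    ![-1, -1, -1, -1, -1, -1, -1, -1, -1, -1, -1, -2, -1, -1, 0],
    ![-1, -1, -1, -1, -1, -1, -1, -1, -1, -1, -1, -1, 0, 0, 0],
    ![-2, -3, -4, -5, -6, -7, -8, -9, -10, -11, -12, -13, -6, -7, -2],
    ![-2, -3, -4, -5, -6, -7, -8, -9, -10, -11, -12, -13, -7, -8, -2],
    ![-1, -1, -1, -1, -1, -1, -1, -1, -1, -1, -1, -1, -1, -1, 0],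
    ![-1, -1, -1, -1, -1, -1, -1, -1, -1, -1, -1, -1, -1, 0, 0],
    ![-2, -3, -4, -5, -6, -7, -8, -9, -10, -11, -12, -13, -7, -7, -2],
    ![-2, -3, -4, -5, -6, -7, -8, -9, -10, -11, -12, -13, -6, -8, -2],
    ![-1, -1, -1, -1, -1, -1, -1, -1, -1, -1, -1, -1, 0, -1, 0]]

def base : Fin 15 → ℤ := ![1, 0, 0, 0, 0, 0, 0, 0, 0, 0, 0, 0, 0, 0, 0]

def XX (k : Fin 56) : Fin 15 → ℤ := base + S15.mulVec (tab k)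

theorem XX_val : ∀ k : Fin 56, (∀ i : Fin 14, YY (XX k) i =
    if i.val = k.val / 4 then (if k.val % 4 < 2 then 2 else -2) else 0) ∧
    XX k 14 = if k.val % 2 = 0 then 0 else (if k.val % 4 < 2 then -1 else 1) := by
  decide +kernel

theorem XX_orbit : ∀ k : Fin 56, 2 * dot15 base (tab k) + form S15 (tab k) (tab k) = 0 := by
  decide +kernel

theorem XX_inj : Function.Injective XX := by
  decide +kernel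

def w1 : Fin 15 → ℤ := ![1, 0, 0, 0, 0, 0, 0, 0, 0, 0, 0, 0, 0, 0, 0]

def w2 : Fin 15 → ℤ := ![1, 2, 3, 4, 5, 6, 7, 8, 9, 10, 11, 12, 6, 7, 2]

theorem form_w1 : form S15 w1 w1 = 2 := by decide +kernel

theorem form_w2 : form S15 w2 w2 = 2 := by decide +kernel

theorem sum_w1 : ∑ k, dot15 (XX k) w1 ^ 2 = 8 := by decide +kernel

theorem sum_w2 : ∑ k, dot15 (XX k) w2 ^ 2 = 56 := by decide +kernel

theorem XX_ne : ∀ k, XX k ≠ 0 := by decide +kernel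

end Pool.Agent.R396.WJ
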