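import Pool.Agent.R396.WJ.Cls
import Pool.Agent.R396.WJ.Four

set_option autoImplicit false

/-!
# There is no weak Jacobi form of weight zero and index one for the lattice
-/

namespace Pool.Agent.R396.WJ

open UpperHalfPlane

theorem sum_supp {g : (Fin 15 → ℤ) → ℂ} {b : ℂ} (h0 : ∀ x, g x ≠ 0 → x = 0 ∨ ∃ k, x = XX k)
    (hb : ∀ k, g (XX k) = b) (w : (Fin 15 → ℤ) → ℂ) :
    ∑' x, g x * w x = g 0 * w 0 + b * ∑ k, w (XX k) := by
  classical
  rw [tsum_eq_sum (s := insert 0 (Finset.univ.image XX)), Finset.sum_insert,
    Finset.sum_image fun a _ b _ h => XX_inj h, Finset.mul_sum]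
  · congr 1
    exact Finset.sum_congr rfl fun k _ => by rw [hb k]
  · intro h
    obtain ⟨k, -, hk⟩ := Finset.mem_image.1 h
    exact XX_ne k hk
  · intro x hx
    have : g x = 0 := by
      by_contra hne
      rcases h0 x hne with h | ⟨k, h⟩
      · exact hx (by rw [h]; exact Finset.mem_insert_self _ _)
      · refine hx ?_
        rw [h]
        exact Finset.mem_insert_of_mem (Finset.mem_image_of_mem XX (Finset.mem_univ k))
    rw [this, zero_mul]

theorem vanish {φ : ℍ → (Fin 15 → ℂ) → ℂ} (h : IsWeakJacobiForm S15 0 φ) :
    ∀ τ z, φ τ z = 0 := by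
  obtain ⟨f, hf⟩ := h.fourier
  have hf' : FE φ f := hf
  have hφ : ∀ (τ : ℍ) (z : Fin 15 → ℂ),
      φ (ModularGroup.S • τ) (fun i => z i / τ) =
        Complex.exp (Real.pi * Complex.I * form S15 z z / τ) * φ τ z := by
    intro τ z
    have h1 := h.modular ModularGroup.S τ z
    rw [ModularGroup.denom_S] at h1
    have h2 : (ModularGroup.S 1 0 : ℤ) = 1 := rfl
    rw [h2, zpow_zero, one_mul] at h1
    simp only [Int.cast_one, mul_one] at h1
    exact h1
  have hell : ∀ (l : Fin 15 → ℤ) (τ : ℍ) (z : Fin 15 → ℂ), φ τ (fun i => z i + l i * (τ : ℂ)) =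
      Complex.exp (-(Real.pi * Complex.I *
        form S15 (fun i => (l i : ℂ)) (fun i => (l i : ℂ)) * (τ : ℂ))
        - 2 * Real.pi * Complex.I * form S15 (fun i => (l i : ℂ)) z) * φ τ z := by
    intro l τ z
    have h1 := h.elliptic τ z l 0
    simp only [Pi.zero_apply, Int.cast_zero, add_zero] at h1
    exact h1
  have hsh := fun m x l => shift S15_symm S15_even hf' l (hell l) m x
  have key : ∀ m : ℕ, ∀ x, f m x = 0 := by
    intro m
    induction m using Nat.strong_induction_on with
    | _ m ih =>
      have hsupp : ∀ x, f m x ≠ 0 → x = 0 ∨ ∃ k, x = XX k := by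
        intro x hx
        refine classify fun l => ?_
        obtain ⟨h1, h2⟩ := hsh m x l
        have hev : form S15 l l = 2 * (form S15 l l / 2) := by
          have := S15_even l
          rw [Int.even_iff] at this
          omega
        have hdt : dt x l = dot15 x l := rfl
        rw [hdt] at h1 h2
        by_contra hneg
        rw [not_le] at hneg
        by_cases hN : (m : ℤ) + dot15 x l + form S15 l l / 2 < 0
        · exact hx (h2 hN)
        · have h3 := h1 ((m : ℤ) + dot15 x l + form S15 l l / 2).toNat (by omega)
          rw [h3] at hx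
          exact hx (ih _ (by omega) _)
      have hb : ∀ k, f m (XX k) = f m base := by
        intro k
        obtain ⟨h1, -⟩ := hsh m base (tab k)
        have hev : form S15 (tab k) (tab k) = 2 * (form S15 (tab k) (tab k) / 2) := by
          have := S15_even (tab k)
          rw [Int.even_iff] at this
          omega
        have ho := XX_orbit k
        have hdt : dt base (tab k) = dot15 base (tab k) := rfl
        exact (h1 m (by rw [hdt]; omega)).symm
      have hm1 := moment_two hφ hf' w1 m
      have hm2 := moment_two hφ hf' w2 m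
      rw [sum_supp hsupp hb] at hm1 hm2
      have e1 : ∑ k, ((dt (XX k) w1 : ℤ) : ℂ) ^ 2 = 8 := by
        have := sum_w1
        have h2 : ((∑ k, dot15 (XX k) w1 ^ 2 : ℤ) : ℂ) = 8 := by rw [this]; norm_num
        push_cast at h2
        exact h2
      have e2' : ∑ k, ((dt (XX k) w2 : ℤ) : ℂ) ^ 2 = 56 := by
        have := sum_w2
        have h2 : ((∑ k, dot15 (XX k) w2 ^ 2 : ℤ) : ℂ) = 56 := by rw [this]; norm_num
        push_cast at h2
        exact h2
      have e3 : ∀ v, dt (0 : Fin 15 → ℤ) v = 0 := fun v => by simp [dt]
      rw [e1, e3, form_w1] at hm1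
      rw [e2', e3, form_w2] at hm2
      have hbase : f m base = 0 := by
        simp only [Int.cast_zero] at hm1 hm2
        linear_combination (1 / 48) * hm2 - (1 / 48) * hm1
      have hzero : f m 0 = 0 := by
        have hs := sum_supp hsupp hb (fun _ => 1)
        rw [hbase] at hs
        simp only [mul_one, zero_mul, add_zero] at hs
        rw [← hs]
        by_cases hm : m = 0
        · subst hm
          rw [hbase] at hm1
          have : e2 0 = 1 := by simp [e2]
          rw [this] at hm1
          simp only [Int.cast_zero] at hm1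
          norm_num at hm1
          linear_combination (-6) * hm1
        · exact (moment_zero hφ hf').2 m hm
      intro x
      by_contra hne
      rcases hsupp x hne with h | ⟨k, h⟩
      · rw [h] at hne
        exact hne hzero
      · rw [h, hb k] at hne
        exact hne hbase
  intro τ z
  refine (hf τ z).unique ?_
  have : (fun p : ℕ × (Fin 15 → ℤ) =>
      f p.1 p.2 * Complex.exp (2 * Real.pi * Complex.I * (p.1 * (τ : ℂ) + ∑ i, p.2 i * z i))) =
      fun _ => 0 := by
    funext p
    rw [key, zero_mul]
  rw [this]
  exact hasSum_zero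

end Pool.Agent.R396.WJ
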